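import Mathlib

open Finset
open scoped Classical

namespace Pool.Agent.Lib.MP_bad31e_co

universe u w

variable {V : Type u} {ι : Type w}

/-- number of labels of `E` having both ends in `T`. -/
noncomputable def cnt (E : Finset ι) (en : ι → Sym2 V) (T : Finset V) : ℕ :=
  (E.filter (fun i => ∀ x ∈ en i, x ∈ T)).card

/-- number of labels of `E` incident with `v`. -/
noncomputable def dg (E : Finset ι) (en : ι → Sym2 V) (v : V) : ℕ :=
  (E.filter (fun i => v ∈ en i)).card

/-- multigraphs (labelled edges `E`, ends `en`) on the vertex set `S`, with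
`2|S|-2` edges, every nonempty vertex set `T` spanning at most `2|T|-2` edges. -/
structure Good (S : Finset V) (E : Finset ι) (en : ι → Sym2 V) : Prop where
  sub : ∀ i ∈ E, ∀ x ∈ en i, x ∈ S
  tot : E.card + 2 = 2 * S.card
  sp : ∀ T, T ⊆ S → T.Nonempty → cnt E en T + 2 ≤ 2 * T.card

/-- a solution: an order `rk` and, for each vertex other than `τ`, an edge to a larger vertex,
for each vertex other than `σ`, an edge to a smaller vertex, all edges distinct. -/
structure Sol (S : Finset V) (E : Finset ι) (en : ι → Sym2 V) (σ τ : V)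
    (rk : V → ℤ) (up dn : V → ι) : Prop where
  inj : ∀ a ∈ S, ∀ b ∈ S, rk a = rk b → a = b
  hup : ∀ v ∈ S, v ≠ τ → up v ∈ E ∧ ∃ w ∈ S, en (up v) = s(v, w) ∧ rk v < rk w
  hdn : ∀ v ∈ S, v ≠ σ → dn v ∈ E ∧ ∃ w ∈ S, en (dn v) = s(v, w) ∧ rk w < rk v
  hne : ∀ v ∈ S, v ≠ τ → ∀ w ∈ S, w ≠ σ → up v ≠ dn w

/-- vertex `y` owns the label `e` in the solution. -/
def Own (σ τ y : V) (e : ι) (up dn : V → ι) : Prop :=
  (y ≠ τ ∧ up y = e) ∨ (y ≠ σ ∧ dn y = e)

def Feas (S : Finset V) (E : Finset ι) (en : ι → Sym2 V) (σ τ : V) : Prop :=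
  σ ∈ S ∧ τ ∈ S ∧ ∃ (rk : V → ℤ) (up dn : V → ι), Sol S E en σ τ rk up dn

def FeasO (S : Finset V) (E : Finset ι) (en : ι → Sym2 V) (y : V) (e : ι) (σ τ : V) : Prop :=
  σ ∈ S ∧ τ ∈ S ∧ ∃ (rk : V → ℤ) (up dn : V → ι), Sol S E en σ τ rk up dn ∧ Own σ τ y e up dn

theorem FeasO.feas {S : Finset V} {E : Finset ι} {en : ι → Sym2 V} {y : V} {e : ι} {σ τ : V}
    (h : FeasO S E en y e σ τ) : Feas S E en σ τ := by
  obtain ⟨h1, h2, rk, up, dn, h3, _⟩ := h
  exact ⟨h1, h2, rk, up, dn, h3⟩

theorem Sol.symm {S : Finset V} {E : Finset ι} {en : ι → Sym2 V} {σ τ : V}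
    {rk : V → ℤ} {up dn : V → ι} (h : Sol S E en σ τ rk up dn) :
    Sol S E en τ σ (fun v => - rk v) dn up where
  inj := fun a ha b hb hab => h.inj a ha b hb (by simpa using hab)
  hup := fun v hv hvs => by
    obtain ⟨h1, w, hw, h2, h3⟩ := h.hdn v hv hvs
    exact ⟨h1, w, hw, h2, by simpa using h3⟩
  hdn := fun v hv hvs => by
    obtain ⟨h1, w, hw, h2, h3⟩ := h.hup v hv hvs
    exact ⟨h1, w, hw, h2, by simpa using h3⟩
  hne := fun v hv hvs w hw hwt => (h.hne w hw hwt v hv hvs).symm

theorem Own.symm {σ τ y : V} {e : ι} {up dn : V → ι} (h : Own σ τ y e up dn) :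
    Own τ σ y e dn up := by
  rcases h with h | h
  · exact Or.inr h
  · exact Or.inl h

theorem Feas.symm {S : Finset V} {E : Finset ι} {en : ι → Sym2 V} {σ τ : V}
    (h : Feas S E en σ τ) : Feas S E en τ σ := by
  obtain ⟨h1, h2, rk, up, dn, h3⟩ := h
  exact ⟨h2, h1, _, _, _, h3.symm⟩

theorem FeasO.symm {S : Finset V} {E : Finset ι} {en : ι → Sym2 V} {y : V} {e : ι} {σ τ : V}
    (h : FeasO S E en y e σ τ) : FeasO S E en y e τ σ := by
  obtain ⟨h1, h2, rk, up, dn, h3, h4⟩ := h
  exact ⟨h2, h1, _, _, _, h3.symm, h4.symm⟩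

theorem Sol.up_inj {S : Finset V} {E : Finset ι} {en : ι → Sym2 V} {σ τ : V}
    {rk : V → ℤ} {up dn : V → ι} (h : Sol S E en σ τ rk up dn) {v w : V}
    (hv : v ∈ S) (hw : w ∈ S) (hvt : v ≠ τ) (hwt : w ≠ τ) (he : up v = up w) : v = w := by
  obtain ⟨_, v', _, h2, h3⟩ := h.hup v hv hvt
  obtain ⟨_, w', _, h5, h6⟩ := h.hup w hw hwt
  rw [he, h5] at h2
  rw [Sym2.eq_iff] at h2
  rcases h2 with ⟨h7, h8⟩ | ⟨h7, h8⟩
  · exact h7.symm
  · subst h7; subst h8; omega

theorem Sol.dn_inj {S : Finset V} {E : Finset ι} {en : ι → Sym2 V} {σ τ : V}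
    {rk : V → ℤ} {up dn : V → ι} (h : Sol S E en σ τ rk up dn) {v w : V}
    (hv : v ∈ S) (hw : w ∈ S) (hvt : v ≠ σ) (hwt : w ≠ σ) (he : dn v = dn w) : v = w :=
  h.symm.up_inj hv hw hvt hwt he

/-- every label is owned. -/
theorem Sol.cover {S : Finset V} {E : Finset ι} {en : ι → Sym2 V} {σ τ : V}
    {rk : V → ℤ} {up dn : V → ι} (h : Sol S E en σ τ rk up dn) (hσ : σ ∈ S) (hτ : τ ∈ S)
    (hE : E.card + 2 = 2 * S.card) {i : ι} (hi : i ∈ E) :
    (∃ v ∈ S, v ≠ τ ∧ up v = i) ∨ (∃ v ∈ S, v ≠ σ ∧ dn v = i) := by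
  have hA : ((S.erase τ).image up).card = S.card - 1 := by
    rw [Finset.card_image_of_injOn, Finset.card_erase_of_mem hτ]
    intro v hv w hw he
    simp only [Finset.coe_erase, Set.mem_sdiff, Finset.mem_coe, Set.mem_singleton_iff] at hv hw
    exact h.up_inj hv.1 hw.1 hv.2 hw.2 he
  have hB : ((S.erase σ).image dn).card = S.card - 1 := by
    rw [Finset.card_image_of_injOn, Finset.card_erase_of_mem hσ]
    intro v hv w hw he
    simp only [Finset.coe_erase, Set.mem_sdiff, Finset.mem_coe, Set.mem_singleton_iff] at hv hw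
    exact h.dn_inj hv.1 hw.1 hv.2 hw.2 he
  have hdisj : Disjoint ((S.erase τ).image up) ((S.erase σ).image dn) := by
    rw [Finset.disjoint_left]
    intro j hj hj'
    simp only [Finset.mem_image, Finset.mem_erase] at hj hj'
    obtain ⟨v, ⟨hv1, hv2⟩, hv3⟩ := hj
    obtain ⟨w, ⟨hw1, hw2⟩, hw3⟩ := hj'
    exact h.hne v hv2 hv1 w hw2 hw1 (hv3.trans hw3.symm)
  have hsub : ((S.erase τ).image up) ∪ ((S.erase σ).image dn) ⊆ E := by
    intro j hj
    simp only [Finset.mem_union, Finset.mem_image, Finset.mem_erase] at hj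
    rcases hj with ⟨v, ⟨hv1, hv2⟩, hv3⟩ | ⟨v, ⟨hv1, hv2⟩, hv3⟩
    · rw [← hv3]; exact (h.hup v hv2 hv1).1
    · rw [← hv3]; exact (h.hdn v hv2 hv1).1
  have hpos : 0 < S.card := Finset.card_pos.mpr ⟨σ, hσ⟩
  have hcard : (((S.erase τ).image up) ∪ ((S.erase σ).image dn)).card = E.card := by
    rw [Finset.card_union_of_disjoint hdisj, hA, hB]; omega
  have heq := Finset.eq_of_subset_of_card_le hsub (le_of_eq hcard.symm)
  rw [← heq] at hi
  simp only [Finset.mem_union, Finset.mem_image, Finset.mem_erase] at hi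
  rcases hi with ⟨v, ⟨hv1, hv2⟩, hv3⟩ | ⟨v, ⟨hv1, hv2⟩, hv3⟩
  · exact Or.inl ⟨v, hv2, hv1, hv3⟩
  · exact Or.inr ⟨v, hv2, hv1, hv3⟩

/-- exchanging two parallel labels. -/
theorem Sol.swap {S : Finset V} {E : Finset ι} {en : ι → Sym2 V} {σ τ : V}
    {rk : V → ℤ} {up dn : V → ι} (h : Sol S E en σ τ rk up dn) {l m : ι}
    (hl : l ∈ E) (hm : m ∈ E) (he : en l = en m) :
    Sol S E en σ τ rk (fun v => Equiv.swap l m (up v)) (fun v => Equiv.swap l m (dn v)) := by
  have hen : ∀ i, en (Equiv.swap l m i) = en i := by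
    intro i
    by_cases h1 : i = l
    · subst h1; rw [Equiv.swap_apply_left]; exact he.symm
    · by_cases h2 : i = m
      · subst h2; rw [Equiv.swap_apply_right]; exact he
      · rw [Equiv.swap_apply_of_ne_of_ne h1 h2]
  have hE : ∀ i ∈ E, Equiv.swap l m i ∈ E := by
    intro i hi
    by_cases h1 : i = l
    · subst h1; rw [Equiv.swap_apply_left]; exact hm
    · by_cases h2 : i = m
      · subst h2; rw [Equiv.swap_apply_right]; exact hl
      · rw [Equiv.swap_apply_of_ne_of_ne h1 h2]; exact hi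
  refine ⟨h.inj, ?_, ?_, ?_⟩
  · intro v hv hvt
    obtain ⟨h1, w, hw, h2, h3⟩ := h.hup v hv hvt
    exact ⟨hE _ h1, w, hw, by rw [hen]; exact h2, h3⟩
  · intro v hv hvt
    obtain ⟨h1, w, hw, h2, h3⟩ := h.hdn v hv hvt
    exact ⟨hE _ h1, w, hw, by rw [hen]; exact h2, h3⟩
  · intro v hv hvt w hw hws hcon
    exact h.hne v hv hvt w hw hws ((Equiv.swap l m).injective hcon)

/-- inverse of the reduction at a vertex of degree 3, up case. -/
theorem L1core {S0 : Finset V} {E0 : Finset ι} {en0 : ι → Sym2 V} {σ τ : V}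
    {rk : V → ℤ} {up dn : V → ι} (h : Sol S0 E0 en0 σ τ rk up dn) (hσ : σ ∈ S0) (hτ : τ ∈ S0)
    {v o o' z : V} (hv : v ∉ S0) (ho : o ∈ S0) (ho' : o' ∈ S0) (hz : z ∈ S0) {e : ι}
    (hot : o ≠ τ) (hupo : up o = e) (hen : en0 e = s(o, o')) (hzo : z ≠ o) (hzo' : z ≠ o')
    {E : Finset ι} {en : ι → Sym2 V} (hE : ∀ i ∈ E0, i ≠ e → i ∈ E ∧ en i = en0 i)
    {jo jo' jz : ι} (hjo : jo ∈ E) (hjo' : jo' ∈ E) (hjz : jz ∈ E)
    (h12 : jo ≠ jo') (h13 : jo ≠ jz) (h23 : jo' ≠ jz)
    (eo : en jo = s(v, o)) (eo' : en jo' = s(v, o')) (ez : en jz = s(v, z))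
    (n1 : ∀ i ∈ E0, i ≠ e → i ≠ jo ∧ i ≠ jo' ∧ i ≠ jz) :
    FeasO (insert v S0) E en v jz σ τ := by
  have hvo : ∀ w ∈ S0, w ≠ v := fun w hw hwv => hv (hwv ▸ hw)
  have hoo' : rk o < rk o' := by
    obtain ⟨_, w, _, h2, h3⟩ := h.hup o ho hot
    rw [hupo, hen, Sym2.eq_iff] at h2
    rcases h2 with ⟨_, h4⟩ | ⟨h4, h5⟩
    · rw [h4]; exact h3
    · subst h5; subst h4; omega
  -- facts on old labels
  have hup' : ∀ w ∈ S0, w ≠ τ → w ≠ o → up w ≠ e := by
    intro w hw hwt hwo hcon
    exact hwo (h.up_inj hw ho hwt hot (hcon.trans hupo.symm))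
  have hdn' : ∀ w ∈ S0, w ≠ σ → dn w ≠ e := by
    intro w hw hws hcon
    exact h.hne o ho hot w hw hws (hupo.trans hcon.symm)
  rcases lt_trichotomy (rk z) (rk o') with hlt | heq | hgt
  · refine ⟨Finset.mem_insert_of_mem hσ, Finset.mem_insert_of_mem hτ,
      fun w => if w = v then 2 * rk o' - 1 else 2 * rk w,
      fun w => if w = v then jo' else if w = o then jo else up w,
      fun w => if w = v then jz else dn w, ⟨?_, ?_, ?_, ?_⟩, ?_⟩
    · intro a ha b hb hab
      rw [Finset.mem_insert] at ha hb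
      by_cases ha' : a = v
      · by_cases hb' : b = v
        · rw [ha', hb']
        · simp only [ha', hb', if_true, if_false] at hab; omega
      · by_cases hb' : b = v
        · simp only [ha', hb', if_true, if_false] at hab; omega
        · simp only [ha', hb', if_false] at hab
          exact h.inj a (ha.resolve_left ha') b (hb.resolve_left hb') (by omega)
    · intro w hw hwt
      by_cases hwv : w = v
      · subst hwv
        refine ⟨by simpa using hjo', o', Finset.mem_insert_of_mem ho', by simpa using eo', ?_⟩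
        simp [hvo o' ho']
      · rw [Finset.mem_insert] at hw
        have hw := hw.resolve_left hwv
        by_cases hwo : w = o
        · subst hwo
          refine ⟨by simpa [hwv] using hjo, v, Finset.mem_insert_self _ _, ?_, ?_⟩
          · simp only [hwv, if_false, if_true]; rw [eo]; exact Sym2.eq_swap
          · simp only [hwv, if_false, if_true]; omega
        · obtain ⟨h1, x, hx, h2, h3⟩ := h.hup w hw hwt
          obtain ⟨h4, h5⟩ := hE _ h1 (hup' w hw hwt hwo)
          refine ⟨by simpa [hwv, hwo] using h4, x, Finset.mem_insert_of_mem hx, ?_, ?_⟩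
          · simp only [hwv, hwo, if_false]; rw [h5, h2]
          · simp only [hwv, hvo x hx, if_false]; omega
    · intro w hw hws
      by_cases hwv : w = v
      · subst hwv
        refine ⟨by simpa using hjz, z, Finset.mem_insert_of_mem hz, by simpa using ez, ?_⟩
        simp only [hvo z hz, if_false, if_true]; omega
      · rw [Finset.mem_insert] at hw
        have hw := hw.resolve_left hwv
        obtain ⟨h1, x, hx, h2, h3⟩ := h.hdn w hw hws
        obtain ⟨h4, h5⟩ := hE _ h1 (hdn' w hw hws)
        refine ⟨by simpa [hwv] using h4, x, Finset.mem_insert_of_mem hx, ?_, ?_⟩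
        · simp only [hwv, if_false]; rw [h5, h2]
        · simp only [hwv, hvo x hx, if_false]; omega
    · intro a ha hat b hb hbs
      rw [Finset.mem_insert] at ha hb
      by_cases hav : a = v
      · by_cases hbv : b = v
        · simp only [hav, hbv, if_true]; exact h23
        · have hb := hb.resolve_left hbv
          simp only [hav, hbv, if_true, if_false]
          exact ((n1 _ (h.hdn b hb hbs).1 (hdn' b hb hbs)).2.1).symm
      · have ha := ha.resolve_left hav
        by_cases hao : a = o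
        · by_cases hbv : b = v
          · simp only [hav, hao, hbv, if_true, if_false, hvo o ho]; exact h13
          · have hb := hb.resolve_left hbv
            simp only [hao, hvo o ho, hbv, if_true, if_false]
            exact ((n1 _ (h.hdn b hb hbs).1 (hdn' b hb hbs)).1).symm
        · by_cases hbv : b = v
          · simp only [hav, hao, hbv, if_true, if_false]
            exact (n1 _ (h.hup a ha hat).1 (hup' a ha hat hao)).2.2
          · have hb := hb.resolve_left hbv
            simp only [hav, hao, hbv, if_false]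
            exact h.hne a ha hat b hb hbs
    · right
      refine ⟨(hvo σ hσ).symm, by simp⟩
  · exact absurd (h.inj z hz o' ho' heq) hzo'
  · refine ⟨Finset.mem_insert_of_mem hσ, Finset.mem_insert_of_mem hτ,
      fun w => if w = v then 2 * rk o' + 1 else 2 * rk w,
      fun w => if w = v then jz else if w = o then jo else up w,
      fun w => if w = v then jo' else dn w, ⟨?_, ?_, ?_, ?_⟩, ?_⟩
    · intro a ha b hb hab
      rw [Finset.mem_insert] at ha hb
      by_cases ha' : a = v
      · by_cases hb' : b = v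
        · rw [ha', hb']
        · simp only [ha', hb', if_true, if_false] at hab; omega
      · by_cases hb' : b = v
        · simp only [ha', hb', if_true, if_false] at hab; omega
        · simp only [ha', hb', if_false] at hab
          exact h.inj a (ha.resolve_left ha') b (hb.resolve_left hb') (by omega)
    · intro w hw hwt
      by_cases hwv : w = v
      · subst hwv
        refine ⟨by simpa using hjz, z, Finset.mem_insert_of_mem hz, by simpa using ez, ?_⟩
        simp only [hvo z hz, if_false, if_true]; omega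
      · rw [Finset.mem_insert] at hw
        have hw := hw.resolve_left hwv
        by_cases hwo : w = o
        · subst hwo
          refine ⟨by simpa [hwv] using hjo, v, Finset.mem_insert_self _ _, ?_, ?_⟩
          · simp only [hwv, if_false, if_true]; rw [eo]; exact Sym2.eq_swap
          · simp only [hwv, if_false, if_true]; omega
        · obtain ⟨h1, x, hx, h2, h3⟩ := h.hup w hw hwt
          obtain ⟨h4, h5⟩ := hE _ h1 (hup' w hw hwt hwo)
          refine ⟨by simpa [hwv, hwo] using h4, x, Finset.mem_insert_of_mem hx, ?_, ?_⟩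
          · simp only [hwv, hwo, if_false]; rw [h5, h2]
          · simp only [hwv, hvo x hx, if_false]; omega
    · intro w hw hws
      by_cases hwv : w = v
      · subst hwv
        refine ⟨by simpa using hjo', o', Finset.mem_insert_of_mem ho', by simpa using eo', ?_⟩
        simp [hvo o' ho']
      · rw [Finset.mem_insert] at hw
        have hw := hw.resolve_left hwv
        obtain ⟨h1, x, hx, h2, h3⟩ := h.hdn w hw hws
        obtain ⟨h4, h5⟩ := hE _ h1 (hdn' w hw hws)
        refine ⟨by simpa [hwv] using h4, x, Finset.mem_insert_of_mem hx, ?_, ?_⟩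
        · simp only [hwv, if_false]; rw [h5, h2]
        · simp only [hwv, hvo x hx, if_false]; omega
    · intro a ha hat b hb hbs
      rw [Finset.mem_insert] at ha hb
      by_cases hav : a = v
      · by_cases hbv : b = v
        · simp only [hav, hbv, if_true]; exact h23.symm
        · have hb := hb.resolve_left hbv
          simp only [hav, hbv, if_true, if_false]
          exact ((n1 _ (h.hdn b hb hbs).1 (hdn' b hb hbs)).2.2).symm
      · have ha := ha.resolve_left hav
        by_cases hao : a = o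
        · by_cases hbv : b = v
          · simp only [hav, hao, hbv, if_true, if_false, hvo o ho]; exact h12
          · have hb := hb.resolve_left hbv
            simp only [hao, hvo o ho, hbv, if_true, if_false]
            exact ((n1 _ (h.hdn b hb hbs).1 (hdn' b hb hbs)).1).symm
        · by_cases hbv : b = v
          · simp only [hav, hao, hbv, if_true, if_false]
            exact (n1 _ (h.hup a ha hat).1 (hup' a ha hat hao)).2.1
          · have hb := hb.resolve_left hbv
            simp only [hav, hao, hbv, if_false]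
            exact h.hne a ha hat b hb hbs
    · left
      refine ⟨(hvo τ hτ).symm, by simp⟩

end Pool.Agent.Lib.MP_bad31e_co
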