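import Mathlib
import Pool.Agent.Lib.MP_bad31e_co.Core

open Finset
open scoped Classical

namespace Pool.Agent.Lib.MP_bad31e_co

universe u w

variable {V : Type u} {ι : Type w}

/-- inverse of the reduction at a vertex of degree 3 with three distinct neighbours. -/
theorem L1 {S : Finset V} {E : Finset ι} {en : ι → Sym2 V} {σ τ v x y z : V} {i1 i2 i3 : ι}
    (hvS : v ∈ S) (hx : x ∈ S.erase v) (hy : y ∈ S.erase v) (hz : z ∈ S.erase v)
    (hzx : z ≠ x) (hzy : z ≠ y)
    (h1 : i1 ∈ E) (h2 : i2 ∈ E) (h3 : i3 ∈ E) (h12 : i1 ≠ i2) (h13 : i1 ≠ i3) (h23 : i2 ≠ i3)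
    (e1 : en i1 = s(v, x)) (e2 : en i2 = s(v, y)) (e3 : en i3 = s(v, z))
    (hcard : ((E.erase i2).erase i3).card + 2 = 2 * (S.erase v).card)
    (h : Feas (S.erase v) ((E.erase i2).erase i3) (Function.update en i1 s(x, y)) σ τ) :
    FeasO S E en v i3 σ τ := by
  have hS : insert v (S.erase v) = S := Finset.insert_erase hvS
  have hvn : v ∉ S.erase v := Finset.notMem_erase v S
  have hi1 : i1 ∈ (E.erase i2).erase i3 :=
    Finset.mem_erase.mpr ⟨h13, Finset.mem_erase.mpr ⟨h12, h1⟩⟩
  have hen1 : Function.update en i1 s(x, y) i1 = s(x, y) := Function.update_self _ _ _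
  have hE : ∀ i ∈ (E.erase i2).erase i3, i ≠ i1 →
      i ∈ E ∧ en i = Function.update en i1 s(x, y) i := by
    intro i hi hne
    refine ⟨Finset.mem_of_mem_erase (Finset.mem_of_mem_erase hi), ?_⟩
    rw [Function.update_of_ne hne]
  have n1 : ∀ i ∈ (E.erase i2).erase i3, i ≠ i1 → i ≠ i1 ∧ i ≠ i2 ∧ i ≠ i3 := by
    intro i hi hne
    rw [Finset.mem_erase, Finset.mem_erase] at hi
    exact ⟨hne, hi.2.1, hi.1⟩
  have n1' : ∀ i ∈ (E.erase i2).erase i3, i ≠ i1 → i ≠ i2 ∧ i ≠ i1 ∧ i ≠ i3 := by
    intro i hi hne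
    obtain ⟨a, b, c⟩ := n1 i hi hne
    exact ⟨b, a, c⟩
  -- the core in the up case
  have key : ∀ (σ τ : V) (rk : V → ℤ) (up dn : V → ι),
      Sol (S.erase v) ((E.erase i2).erase i3) (Function.update en i1 s(x, y)) σ τ rk up dn →
      σ ∈ S.erase v → τ ∈ S.erase v → (∃ w ∈ S.erase v, w ≠ τ ∧ up w = i1) →
      FeasO S E en v i3 σ τ := by
    intro σ τ rk up dn hsol hσ hτ ⟨w, hw, hwt, hupw⟩
    obtain ⟨_, w', hw', h5, h6⟩ := hsol.hup w hw hwt
    rw [hupw, hen1, Sym2.eq_iff] at h5
    rcases h5 with ⟨h7, h8⟩ | ⟨h7, h8⟩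
    · subst h7; subst h8
      have := L1core hsol hσ hτ hvn hw hw' hz hwt hupw hen1 hzx hzy hE h1 h2 h3 h12 h13 h23
        e1 e2 e3 n1
      rwa [hS] at this
    · subst h7; subst h8
      have hen1' : Function.update en i1 s(x, y) i1 = s(y, x) := by
        rw [hen1]; exact Sym2.eq_swap
      have := L1core hsol hσ hτ hvn hw hw' hz hwt hupw hen1' hzy hzx hE h2 h1 h3 h12.symm h23 h13
        e2 e1 e3 n1'
      rwa [hS] at this
  obtain ⟨hσ, hτ, rk, up, dn, hsol⟩ := h
  rcases hsol.cover hσ hτ hcard hi1 with hc | hc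
  · exact key σ τ rk up dn hsol hσ hτ hc
  · exact (key τ σ _ dn up hsol.symm hτ hσ hc).symm

/-- insertion of a new vertex of degree 2 at the bottom. -/
theorem D2a {S0 : Finset V} {E0 : Finset ι} {en : ι → Sym2 V} {x' τ y x : V} {e l : ι}
    {E : Finset ι} (hy : y ∉ S0) (hx : x ∈ S0)
    (hE : ∀ i ∈ E0, i ∈ E) (he : e ∈ E) (hl : l ∈ E) (hen : e ∉ E0) (hln : l ∉ E0) (hel : e ≠ l)
    (ee : en e = s(y, x)) (el : en l = s(y, x'))
    (h : Feas S0 E0 en x' τ) : FeasO (insert y S0) E en y e y τ := by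
  obtain ⟨hx', hτ, rk, up, dn, h⟩ := h
  have hvo : ∀ w ∈ S0, w ≠ y := fun w hw hwv => hy (hwv ▸ hw)
  obtain ⟨m, hm⟩ : ∃ m : ℤ, ∀ w ∈ S0, m ≤ rk w := by
    obtain ⟨m, hm⟩ := (S0.image (fun w => - rk w)).exists_le
    refine ⟨-m, fun w hw => ?_⟩
    have := hm _ (Finset.mem_image_of_mem (fun w => - rk w) hw)
    omega
  refine ⟨Finset.mem_insert_self _ _, Finset.mem_insert_of_mem hτ,
    fun w => if w = y then m - 1 else rk w,
    fun w => if w = y then e else up w,
    fun w => if w = x' then l else dn w, ⟨?_, ?_, ?_, ?_⟩, ?_⟩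
  · intro a ha b hb hab
    rw [Finset.mem_insert] at ha hb
    by_cases ha' : a = y
    · by_cases hb' : b = y
      · rw [ha', hb']
      · have := hm b (hb.resolve_left hb')
        simp only [ha', hb', if_true, if_false] at hab; omega
    · by_cases hb' : b = y
      · have := hm a (ha.resolve_left ha')
        simp only [ha', hb', if_true, if_false] at hab; omega
      · simp only [ha', hb', if_false] at hab
        exact h.inj a (ha.resolve_left ha') b (hb.resolve_left hb') hab
  · intro w hw hwt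
    by_cases hwy : w = y
    · subst hwy
      refine ⟨by simpa using he, x, Finset.mem_insert_of_mem hx, by simpa using ee, ?_⟩
      have := hm x hx
      simp only [hvo x hx, if_false, if_true]; omega
    · rw [Finset.mem_insert] at hw
      have hw := hw.resolve_left hwy
      obtain ⟨h1, z, hz, h2, h3⟩ := h.hup w hw hwt
      refine ⟨by simpa [hwy] using hE _ h1, z, Finset.mem_insert_of_mem hz, ?_, ?_⟩
      · simp only [hwy, if_false]; exact h2
      · simp only [hwy, hvo z hz, if_false]; exact h3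
  · intro w hw hwy
    rw [Finset.mem_insert] at hw
    have hw := hw.resolve_left hwy
    by_cases hwx : w = x'
    · subst hwx
      refine ⟨by simpa using hl, y, Finset.mem_insert_self _ _, ?_, ?_⟩
      · simp only [if_true]; rw [el]; exact Sym2.eq_swap
      · have := hm w hw
        simp only [hwy, if_false, if_true]; omega
    · obtain ⟨h1, z, hz, h2, h3⟩ := h.hdn w hw hwx
      refine ⟨by simpa [hwx] using hE _ h1, z, Finset.mem_insert_of_mem hz, ?_, ?_⟩
      · simp only [hwx, if_false]; exact h2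
      · simp only [hwy, hvo z hz, if_false]; exact h3
  · intro a ha hat b hb hby
    rw [Finset.mem_insert] at ha hb
    have hb := hb.resolve_left hby
    by_cases hay : a = y
    · by_cases hbx : b = x'
      · simp only [hay, hbx, if_true]; exact hel
      · simp only [hay, hbx, if_true, if_false]
        intro hcon; exact hen (hcon ▸ (h.hdn b hb hbx).1)
    · have ha := ha.resolve_left hay
      by_cases hbx : b = x'
      · simp only [hay, hbx, if_true, if_false]
        intro hcon; exact hln (hcon ▸ (h.hup a ha hat).1)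
      · simp only [hay, hbx, if_false]
        exact h.hne a ha hat b hb hbx
  · left
    exact ⟨(hvo τ hτ).symm, by simp⟩

/-- insertion of a new vertex of degree 2 between its two neighbours (core). -/
theorem D2bcore {S0 : Finset V} {E0 : Finset ι} {en : ι → Sym2 V} {σ τ y x x' : V} {e l : ι}
    {E : Finset ι} (hσ : σ ∈ S0) (hτ : τ ∈ S0) (hy : y ∉ S0) (hx : x ∈ S0) (hx' : x' ∈ S0)
    (hE : ∀ i ∈ E0, i ∈ E) (he : e ∈ E) (hl : l ∈ E) (hen : e ∉ E0) (hln : l ∉ E0) (hel : e ≠ l)
    (ee : en e = s(y, x)) (el : en l = s(y, x'))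
    {rk : V → ℤ} {up dn : V → ι} (h : Sol S0 E0 en σ τ rk up dn) (hlt : rk x < rk x') :
    ∃ (rk : V → ℤ) (up dn : V → ι), Sol (insert y S0) E en σ τ rk up dn ∧
      dn y = e ∧ up y = l := by
  have hvo : ∀ w ∈ S0, w ≠ y := fun w hw hwv => hy (hwv ▸ hw)
  refine ⟨fun w => if w = y then 2 * rk x + 1 else 2 * rk w,
    fun w => if w = y then l else up w,
    fun w => if w = y then e else dn w, ⟨?_, ?_, ?_, ?_⟩, ?_⟩
  · intro a ha b hb hab
    rw [Finset.mem_insert] at ha hb
    by_cases ha' : a = y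
    · by_cases hb' : b = y
      · rw [ha', hb']
      · simp only [ha', hb', if_true, if_false] at hab; omega
    · by_cases hb' : b = y
      · simp only [ha', hb', if_true, if_false] at hab; omega
      · simp only [ha', hb', if_false] at hab
        exact h.inj a (ha.resolve_left ha') b (hb.resolve_left hb') (by omega)
  · intro w hw hwt
    by_cases hwy : w = y
    · subst hwy
      refine ⟨by simpa using hl, x', Finset.mem_insert_of_mem hx', by simpa using el, ?_⟩
      simp only [hvo x' hx', if_false, if_true]; omega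
    · rw [Finset.mem_insert] at hw
      have hw := hw.resolve_left hwy
      obtain ⟨h1, z, hz, h2, h3⟩ := h.hup w hw hwt
      refine ⟨by simpa [hwy] using hE _ h1, z, Finset.mem_insert_of_mem hz, ?_, ?_⟩
      · simp only [hwy, if_false]; exact h2
      · simp only [hwy, hvo z hz, if_false]; omega
  · intro w hw hwt
    by_cases hwy : w = y
    · subst hwy
      refine ⟨by simpa using he, x, Finset.mem_insert_of_mem hx, by simpa using ee, ?_⟩
      simp only [hvo x hx, if_false, if_true]; omega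
    · rw [Finset.mem_insert] at hw
      have hw := hw.resolve_left hwy
      obtain ⟨h1, z, hz, h2, h3⟩ := h.hdn w hw hwt
      refine ⟨by simpa [hwy] using hE _ h1, z, Finset.mem_insert_of_mem hz, ?_, ?_⟩
      · simp only [hwy, if_false]; exact h2
      · simp only [hwy, hvo z hz, if_false]; omega
  · intro a ha hat b hb hbs
    rw [Finset.mem_insert] at ha hb
    by_cases hay : a = y
    · by_cases hby : b = y
      · simp only [hay, hby, if_true]; exact hel.symm
      · have hb := hb.resolve_left hby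
        simp only [hay, hby, if_true, if_false]
        intro hcon; exact hln (hcon ▸ (h.hdn b hb hbs).1)
    · have ha := ha.resolve_left hay
      by_cases hby : b = y
      · simp only [hay, hby, if_true, if_false]
        intro hcon; exact hen (hcon ▸ (h.hup a ha hat).1)
      · have hb := hb.resolve_left hby
        simp only [hay, hby, if_false]
        exact h.hne a ha hat b hb hbs
  · simp

theorem D2b {S0 : Finset V} {E0 : Finset ι} {en : ι → Sym2 V} {σ τ y x x' : V} {e l : ι}
    {E : Finset ι} (hy : y ∉ S0) (hx : x ∈ S0) (hx' : x' ∈ S0) (hxx : x ≠ x')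
    (hE : ∀ i ∈ E0, i ∈ E) (he : e ∈ E) (hl : l ∈ E) (hen : e ∉ E0) (hln : l ∉ E0) (hel : e ≠ l)
    (ee : en e = s(y, x)) (el : en l = s(y, x'))
    (h : Feas S0 E0 en σ τ) : FeasO (insert y S0) E en y e σ τ := by
  obtain ⟨hσ, hτ, rk, up, dn, h⟩ := h
  have hvo : ∀ w ∈ S0, w ≠ y := fun w hw hwv => hy (hwv ▸ hw)
  rcases lt_trichotomy (rk x) (rk x') with hlt | heq | hgt
  · obtain ⟨rk', up', dn', h1, h2, h3⟩ := D2bcore hσ hτ hy hx hx' hE he hl hen hln hel ee el h hlt
    exact ⟨Finset.mem_insert_of_mem hσ, Finset.mem_insert_of_mem hτ, rk', up', dn', h1,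
      Or.inr ⟨(hvo σ hσ).symm, h2⟩⟩
  · exact absurd (h.inj x hx x' hx' heq) hxx
  · obtain ⟨rk', up', dn', h1, h2, h3⟩ :=
      D2bcore hσ hτ hy hx' hx hE hl he hln hen hel.symm el ee h hgt
    exact ⟨Finset.mem_insert_of_mem hσ, Finset.mem_insert_of_mem hτ, rk', up', dn', h1,
      Or.inl ⟨(hvo τ hτ).symm, h3⟩⟩

/-- expansion of a vertex `y` owning `e` into `v = y` (double edge), core. -/
theorem L3core {S0 : Finset V} {E0 : Finset ι} {en0 : ι → Sym2 V} {σ τ v y x : V} {e : ι}
    (hσ : σ ∈ S0) (hτ : τ ∈ S0) (hv : v ∉ S0) (hy : y ∈ S0) (hx : x ∈ S0)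
    (hen0 : en0 e = s(y, x)) {E : Finset ι} {en : ι → Sym2 V}
    (hE : ∀ i ∈ E0, i ≠ e → i ∈ E ∧ en i = en0 i) (he : e ∈ E) (hene : en e = s(v, x))
    {j1 j2 : ι} (hj1 : j1 ∈ E) (hj2 : j2 ∈ E) (h12 : j1 ≠ j2) (h1e : j1 ≠ e) (h2e : j2 ≠ e)
    (hj1n : j1 ∉ E0) (hj2n : j2 ∉ E0) (e1 : en j1 = s(v, y)) (e2 : en j2 = s(v, y))
    {rk : V → ℤ} {up dn : V → ι} (h : Sol S0 E0 en0 σ τ rk up dn) (hyt : y ≠ τ)
    (hupy : up y = e) : Feas (insert v S0) E en σ τ := by
  have hvo : ∀ w ∈ S0, w ≠ v := fun w hw hwv => hv (hwv ▸ hw)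
  have hyx : rk y < rk x := by
    obtain ⟨_, w, _, h2, h3⟩ := h.hup y hy hyt
    rw [hupy, hen0, Sym2.eq_iff] at h2
    rcases h2 with ⟨_, h4⟩ | ⟨h4, h5⟩
    · rw [h4]; exact h3
    · subst h5; subst h4; omega
  have hup' : ∀ w ∈ S0, w ≠ τ → w ≠ y → up w ≠ e := by
    intro w hw hwt hwo hcon
    exact hwo (h.up_inj hw hy hwt hyt (hcon.trans hupy.symm))
  have hdn' : ∀ w ∈ S0, w ≠ σ → dn w ≠ e := by
    intro w hw hws hcon
    exact h.hne y hy hyt w hw hws (hupy.trans hcon.symm)
  refine ⟨Finset.mem_insert_of_mem hσ, Finset.mem_insert_of_mem hτ,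
    fun w => if w = v then 2 * rk y + 1 else 2 * rk w,
    fun w => if w = v then e else if w = y then j2 else up w,
    fun w => if w = v then j1 else dn w, ⟨?_, ?_, ?_, ?_⟩⟩
  · intro a ha b hb hab
    rw [Finset.mem_insert] at ha hb
    by_cases ha' : a = v
    · by_cases hb' : b = v
      · rw [ha', hb']
      · simp only [ha', hb', if_true, if_false] at hab; omega
    · by_cases hb' : b = v
      · simp only [ha', hb', if_true, if_false] at hab; omega
      · simp only [ha', hb', if_false] at hab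
        exact h.inj a (ha.resolve_left ha') b (hb.resolve_left hb') (by omega)
  · intro w hw hwt
    by_cases hwv : w = v
    · subst hwv
      refine ⟨by simpa using he, x, Finset.mem_insert_of_mem hx, by simpa using hene, ?_⟩
      simp only [hvo x hx, if_false, if_true]; omega
    · rw [Finset.mem_insert] at hw
      have hw := hw.resolve_left hwv
      by_cases hwy : w = y
      · subst hwy
        refine ⟨by simpa [hwv] using hj2, v, Finset.mem_insert_self _ _, ?_, ?_⟩
        · simp only [hwv, if_false, if_true]; rw [e2]; exact Sym2.eq_swap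
        · simp only [hwv, if_false, if_true]; omega
      · obtain ⟨h1, z, hz, h2, h3⟩ := h.hup w hw hwt
        obtain ⟨h4, h5⟩ := hE _ h1 (hup' w hw hwt hwy)
        refine ⟨by simpa [hwv, hwy] using h4, z, Finset.mem_insert_of_mem hz, ?_, ?_⟩
        · simp only [hwv, hwy, if_false]; rw [h5, h2]
        · simp only [hwv, hvo z hz, if_false]; omega
  · intro w hw hws
    by_cases hwv : w = v
    · subst hwv
      refine ⟨by simpa using hj1, y, Finset.mem_insert_of_mem hy, by simpa using e1, ?_⟩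
      simp only [hvo y hy, if_false, if_true]; omega
    · rw [Finset.mem_insert] at hw
      have hw := hw.resolve_left hwv
      obtain ⟨h1, z, hz, h2, h3⟩ := h.hdn w hw hws
      obtain ⟨h4, h5⟩ := hE _ h1 (hdn' w hw hws)
      refine ⟨by simpa [hwv] using h4, z, Finset.mem_insert_of_mem hz, ?_, ?_⟩
      · simp only [hwv, if_false]; rw [h5, h2]
      · simp only [hwv, hvo z hz, if_false]; omega
  · intro a ha hat b hb hbs
    rw [Finset.mem_insert] at ha hb
    by_cases hav : a = v
    · by_cases hbv : b = v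
      · simp only [hav, hbv, if_true]; exact h1e.symm
      · have hb := hb.resolve_left hbv
        simp only [hav, hbv, if_true, if_false]
        exact (hdn' b hb hbs).symm
    · have ha := ha.resolve_left hav
      by_cases hay : a = y
      · by_cases hbv : b = v
        · simp only [hay, hbv, if_true, if_false, hvo y hy]; exact h12.symm
        · have hb := hb.resolve_left hbv
          simp only [hay, hvo y hy, hbv, if_true, if_false]
          intro hcon; exact hj2n (hcon ▸ (h.hdn b hb hbs).1)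
      · by_cases hbv : b = v
        · simp only [hav, hay, hbv, if_true, if_false]
          intro hcon; exact hj1n (hcon ▸ (h.hup a ha hat).1)
        · have hb := hb.resolve_left hbv
          simp only [hav, hay, hbv, if_false]
          exact h.hne a ha hat b hb hbs

theorem L3 {S0 : Finset V} {E0 : Finset ι} {en0 : ι → Sym2 V} {σ τ v y x : V} {e : ι}
    (hv : v ∉ S0) (hy : y ∈ S0) (hx : x ∈ S0)
    (hen0 : en0 e = s(y, x)) {E : Finset ι} {en : ι → Sym2 V}
    (hE : ∀ i ∈ E0, i ≠ e → i ∈ E ∧ en i = en0 i) (he : e ∈ E) (hene : en e = s(v, x))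
    {j1 j2 : ι} (hj1 : j1 ∈ E) (hj2 : j2 ∈ E) (h12 : j1 ≠ j2) (h1e : j1 ≠ e) (h2e : j2 ≠ e)
    (hj1n : j1 ∉ E0) (hj2n : j2 ∉ E0) (e1 : en j1 = s(v, y)) (e2 : en j2 = s(v, y))
    (h : FeasO S0 E0 en0 y e σ τ) : Feas (insert v S0) E en σ τ := by
  obtain ⟨hσ, hτ, rk, up, dn, h, ho⟩ := h
  rcases ho with ⟨h1, h2⟩ | ⟨h1, h2⟩
  · exact L3core hσ hτ hv hy hx hen0 hE he hene hj1 hj2 h12 h1e h2e hj1n hj2n e1 e2 h h1 h2
  · exact (L3core hτ hσ hv hy hx hen0 hE he hene hj1 hj2 h12 h1e h2e hj1n hj2n e1 e2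
      h.symm h1 h2).symm

end Pool.Agent.Lib.MP_bad31e_co
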