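import Mathlib
import Pool.Agent.Lib.MP_bad31e_co.Lifts

open Finset
open scoped Classical

namespace Pool.Agent.Lib.MP_bad31e_co

universe u w

variable {V : Type u} {ι : Type w}

/-- multiplicity of `v` in the list `a, b, c, d`. -/
noncomputable def mul4 (v a b c d : V) : ℕ :=
  (if v = a then 1 else 0) + (if v = b then 1 else 0) + (if v = c then 1 else 0) +
    (if v = d then 1 else 0)

/-- `a, b, c, d` lists the four missing half-edges. -/
def Lst (S : Finset V) (E : Finset ι) (en : ι → Sym2 V) (a b c d : V) : Prop :=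
  a ∈ S ∧ b ∈ S ∧ c ∈ S ∧ d ∈ S ∧ ∀ v ∈ S, dg E en v + mul4 v a b c d = 4

theorem dg_insert {E : Finset ι} {en : ι → Sym2 V} {i : ι} (hi : i ∉ E) (v : V) :
    dg (insert i E) en v = (if v ∈ en i then 1 else 0) + dg E en v := by
  unfold dg
  rw [Finset.filter_insert]
  split_ifs with h
  · rw [Finset.card_insert_of_notMem (by simp [hi])]; omega
  · omega

theorem dg_congr {E : Finset ι} {en en' : ι → Sym2 V} (h : ∀ i ∈ E, en i = en' i) (v : V) :
    dg E en v = dg E en' v := by
  unfold dg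
  congr 1
  apply Finset.filter_congr
  intro i hi
  rw [h i hi]

theorem cnt_mono {E : Finset ι} {en : ι → Sym2 V} {T T' : Finset V} (h : T ⊆ T') :
    cnt E en T ≤ cnt E en T' := by
  unfold cnt
  apply Finset.card_le_card
  intro i hi
  rw [Finset.mem_filter] at hi ⊢
  exact ⟨hi.1, fun x hx => h (hi.2 x hx)⟩

theorem cnt_super {E : Finset ι} {en : ι → Sym2 V} (T T' : Finset V) :
    cnt E en T + cnt E en T' ≤ cnt E en (T ∪ T') + cnt E en (T ∩ T') := by
  unfold cnt
  have h1 := Finset.card_union_add_card_inter (E.filter (fun i => ∀ x ∈ en i, x ∈ T))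
    (E.filter (fun i => ∀ x ∈ en i, x ∈ T'))
  have h2 : (E.filter (fun i => ∀ x ∈ en i, x ∈ T) ∪ E.filter (fun i => ∀ x ∈ en i, x ∈ T')).card
      ≤ (E.filter (fun i => ∀ x ∈ en i, x ∈ T ∪ T')).card := by
    apply Finset.card_le_card
    intro i hi
    rw [Finset.mem_union, Finset.mem_filter, Finset.mem_filter] at hi
    rw [Finset.mem_filter]
    rcases hi with hi | hi
    · exact ⟨hi.1, fun x hx => Finset.mem_union_left _ (hi.2 x hx)⟩
    · exact ⟨hi.1, fun x hx => Finset.mem_union_right _ (hi.2 x hx)⟩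
  have h3 : (E.filter (fun i => ∀ x ∈ en i, x ∈ T) ∩ E.filter (fun i => ∀ x ∈ en i, x ∈ T')).card
      ≤ (E.filter (fun i => ∀ x ∈ en i, x ∈ T ∩ T')).card := by
    apply Finset.card_le_card
    intro i hi
    rw [Finset.mem_inter, Finset.mem_filter, Finset.mem_filter] at hi
    rw [Finset.mem_filter]
    exact ⟨hi.1.1, fun x hx => Finset.mem_inter.mpr ⟨hi.1.2 x hx, hi.2.2 x hx⟩⟩
  omega

theorem Good.noloop {S : Finset V} {E : Finset ι} {en : ι → Sym2 V} (hG : Good S E en)
    {v : V} {i : ι} (hi : i ∈ E) : en i ≠ s(v, v) := by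
  intro hcon
  have hv : v ∈ S := hG.sub i hi v (by rw [hcon]; simp)
  have h := hG.sp {v} (by simpa using hv) ⟨v, by simp⟩
  have h2 : 0 < cnt E en {v} := by
    unfold cnt
    apply Finset.card_pos.mpr
    refine ⟨i, ?_⟩
    rw [Finset.mem_filter]
    refine ⟨hi, ?_⟩
    rw [hcon]; intro x hx; simpa using hx
  simp at h
  omega

theorem Good.other {S : Finset V} {E : Finset ι} {en : ι → Sym2 V} (hG : Good S E en)
    {v : V} {i : ι} (hi : i ∈ E) (hv : v ∈ en i) : ∃ x ∈ S.erase v, en i = s(v, x) := by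
  obtain ⟨x, hx⟩ := Sym2.mem_iff_exists.mp hv
  refine ⟨x, ?_, hx⟩
  rw [Finset.mem_erase]
  refine ⟨?_, hG.sub i hi x (by rw [hx]; simp)⟩
  rintro rfl
  exact hG.noloop hi hx

theorem Good.labels3 {S : Finset V} {E : Finset ι} {en : ι → Sym2 V} (hG : Good S E en)
    {v : V} (h : dg E en v = 3) :
    ∃ i1 i2 i3 : ι, ∃ x y z : V, i1 ≠ i2 ∧ i1 ≠ i3 ∧ i2 ≠ i3 ∧ i1 ∈ E ∧ i2 ∈ E ∧ i3 ∈ E ∧
      x ∈ S.erase v ∧ y ∈ S.erase v ∧ z ∈ S.erase v ∧
      en i1 = s(v, x) ∧ en i2 = s(v, y) ∧ en i3 = s(v, z) ∧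
      ∀ i ∈ E, v ∈ en i → i = i1 ∨ i = i2 ∨ i = i3 := by
  unfold dg at h
  obtain ⟨i1, i2, i3, h12, h13, h23, heq⟩ := Finset.card_eq_three.mp h
  have hm : ∀ i, i ∈ ({i1, i2, i3} : Finset ι) → i ∈ E ∧ v ∈ en i := by
    intro i hi; rw [← heq, Finset.mem_filter] at hi; exact hi
  have h1 := hm i1 (by simp)
  have h2 := hm i2 (by simp)
  have h3 := hm i3 (by simp)
  obtain ⟨x, hx, ex⟩ := hG.other h1.1 h1.2
  obtain ⟨y, hy, ey⟩ := hG.other h2.1 h2.2
  obtain ⟨z, hz, ez⟩ := hG.other h3.1 h3.2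
  refine ⟨i1, i2, i3, x, y, z, h12, h13, h23, h1.1, h2.1, h3.1, hx, hy, hz, ex, ey, ez, ?_⟩
  intro i hi hv
  have : i ∈ ({i1, i2, i3} : Finset ι) := by rw [← heq, Finset.mem_filter]; exact ⟨hi, hv⟩
  simpa using this

theorem Good.labels2 {S : Finset V} {E : Finset ι} {en : ι → Sym2 V} (hG : Good S E en)
    {v : V} (h : dg E en v = 2) :
    ∃ i1 i2 : ι, ∃ x y : V, i1 ≠ i2 ∧ i1 ∈ E ∧ i2 ∈ E ∧
      x ∈ S.erase v ∧ y ∈ S.erase v ∧
      en i1 = s(v, x) ∧ en i2 = s(v, y) ∧
      ∀ i ∈ E, v ∈ en i → i = i1 ∨ i = i2 := by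
  unfold dg at h
  obtain ⟨i1, i2, h12, heq⟩ := Finset.card_eq_two.mp h
  have hm : ∀ i, i ∈ ({i1, i2} : Finset ι) → i ∈ E ∧ v ∈ en i := by
    intro i hi; rw [← heq, Finset.mem_filter] at hi; exact hi
  have h1 := hm i1 (by simp)
  have h2 := hm i2 (by simp)
  obtain ⟨x, hx, ex⟩ := hG.other h1.1 h1.2
  obtain ⟨y, hy, ey⟩ := hG.other h2.1 h2.2
  refine ⟨i1, i2, x, y, h12, h1.1, h2.1, hx, hy, ex, ey, ?_⟩
  intro i hi hv
  have : i ∈ ({i1, i2} : Finset ι) := by rw [← heq, Finset.mem_filter]; exact ⟨hi, hv⟩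
  simpa using this

/-- every vertex has degree at least two. -/
theorem Good.two_le_dg {S : Finset V} {E : Finset ι} {en : ι → Sym2 V} (hG : Good S E en)
    (hS : 2 ≤ S.card) {v : V} (hv : v ∈ S) : 2 ≤ dg E en v := by
  have hne : (S.erase v).Nonempty := by
    rw [← Finset.card_pos, Finset.card_erase_of_mem hv]; omega
  have h := hG.sp (S.erase v) (Finset.erase_subset _ _) hne
  rw [Finset.card_erase_of_mem hv] at h
  have h2 : E.card ≤ dg E en v + cnt E en (S.erase v) := by
    unfold dg cnt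
    rw [← Finset.card_union_add_card_inter]
    refine le_trans ?_ (Nat.le_add_right _ _)
    apply Finset.card_le_card
    intro i hi
    rw [Finset.mem_union, Finset.mem_filter, Finset.mem_filter]
    by_cases hvi : v ∈ en i
    · exact Or.inl ⟨hi, hvi⟩
    · refine Or.inr ⟨hi, fun x hx => ?_⟩
      rw [Finset.mem_erase]
      refine ⟨?_, hG.sub i hi x hx⟩
      rintro rfl
      exact hvi hx
  have h3 := hG.tot
  omega

/-- three labels at `v` cannot all lead into a tight set avoiding `v`. -/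
theorem Good.blocked {S : Finset V} {E : Finset ι} {en : ι → Sym2 V} (hG : Good S E en)
    {v x y z : V} {i1 i2 i3 : ι} (hv : v ∈ S)
    (h1 : i1 ∈ E) (h2 : i2 ∈ E) (h3 : i3 ∈ E) (h12 : i1 ≠ i2) (h13 : i1 ≠ i3) (h23 : i2 ≠ i3)
    (e1 : en i1 = s(v, x)) (e2 : en i2 = s(v, y)) (e3 : en i3 = s(v, z))
    {T : Finset V} (hT : T ⊆ S.erase v) (hx : x ∈ T) (hy : y ∈ T) (hz : z ∈ T) :
    cnt E en T + 3 ≤ 2 * T.card := by
  have hvT : v ∉ T := fun h => Finset.notMem_erase v S (hT h)
  have h := hG.sp (insert v T) (by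
    intro a ha
    rw [Finset.mem_insert] at ha
    rcases ha with ha | ha
    · exact ha ▸ hv
    · exact Finset.mem_of_mem_erase (hT ha)) ⟨v, by simp⟩
  rw [Finset.card_insert_of_notMem hvT] at h
  have h4 : cnt E en T + 3 ≤ cnt E en (insert v T) := by
    unfold cnt
    have hd : Disjoint (E.filter (fun i => ∀ x ∈ en i, x ∈ T)) {i1, i2, i3} := by
      rw [Finset.disjoint_left]
      intro i hi hi'
      rw [Finset.mem_filter] at hi
      simp only [Finset.mem_insert, Finset.mem_singleton] at hi'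
      rcases hi' with rfl | rfl | rfl
      · exact hvT (hi.2 v (by rw [e1]; simp))
      · exact hvT (hi.2 v (by rw [e2]; simp))
      · exact hvT (hi.2 v (by rw [e3]; simp))
    have h5 : ({i1, i2, i3} : Finset ι).card = 3 := Finset.card_eq_three.mpr
      ⟨i1, i2, i3, h12, h13, h23, rfl⟩
    rw [← h5, ← Finset.card_union_of_disjoint hd]
    apply Finset.card_le_card
    intro i hi
    rw [Finset.mem_union] at hi
    rw [Finset.mem_filter]
    rcases hi with hi | hi
    · rw [Finset.mem_filter] at hi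
      exact ⟨hi.1, fun x hx => Finset.mem_insert_of_mem (hi.2 x hx)⟩
    · simp only [Finset.mem_insert, Finset.mem_singleton] at hi
      rcases hi with rfl | rfl | rfl
      · refine ⟨h1, ?_⟩
        rw [e1]; intro a ha; rw [Sym2.mem_iff] at ha
        rcases ha with rfl | rfl
        · simp
        · exact Finset.mem_insert_of_mem hx
      · refine ⟨h2, ?_⟩
        rw [e2]; intro a ha; rw [Sym2.mem_iff] at ha
        rcases ha with rfl | rfl
        · simp
        · exact Finset.mem_insert_of_mem hy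
      · refine ⟨h3, ?_⟩
        rw [e3]; intro a ha; rw [Sym2.mem_iff] at ha
        rcases ha with rfl | rfl
        · simp
        · exact Finset.mem_insert_of_mem hz
  omega

/-- reduction at a vertex of degree three. -/
theorem Good.op1 {S : Finset V} {E : Finset ι} {en : ι → Sym2 V} (hG : Good S E en)
    {v x y : V} {i1 i2 i3 : ι} (hv : v ∈ S)
    (h1 : i1 ∈ E) (h2 : i2 ∈ E) (h3 : i3 ∈ E) (h12 : i1 ≠ i2) (h13 : i1 ≠ i3) (h23 : i2 ≠ i3)
    (hx : x ∈ S.erase v) (hy : y ∈ S.erase v)
    (hall : ∀ i ∈ E, v ∈ en i → i = i1 ∨ i = i2 ∨ i = i3)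
    (e1 : en i1 = s(v, x))
    (hnb : ∀ T, T ⊆ S.erase v → x ∈ T → y ∈ T → cnt E en T + 3 ≤ 2 * T.card) :
    Good (S.erase v) ((E.erase i2).erase i3) (Function.update en i1 s(x, y)) where
  sub := by
    intro i hi a ha
    rw [Finset.mem_erase, Finset.mem_erase] at hi
    by_cases hi1 : i = i1
    · subst hi1
      rw [Function.update_self, Sym2.mem_iff] at ha
      rcases ha with rfl | rfl
      · exact hx
      · exact hy
    · rw [Function.update_of_ne hi1] at ha
      rw [Finset.mem_erase]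
      refine ⟨?_, hG.sub i hi.2.2 a ha⟩
      rintro rfl
      rcases hall i hi.2.2 ha with h | h | h
      · exact hi1 h
      · exact hi.2.1 h
      · exact hi.1 h
  tot := by
    have h4 : i3 ∈ E.erase i2 := Finset.mem_erase.mpr ⟨h23.symm, h3⟩
    rw [Finset.card_erase_of_mem h4, Finset.card_erase_of_mem h2, Finset.card_erase_of_mem hv]
    have h5 := hG.tot
    have h6 : ({i1, i2, i3} : Finset ι).card = 3 := Finset.card_eq_three.mpr
      ⟨i1, i2, i3, h12, h13, h23, rfl⟩
    have h7 : ({i1, i2, i3} : Finset ι) ⊆ E := by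
      intro i hi
      simp only [Finset.mem_insert, Finset.mem_singleton] at hi
      rcases hi with rfl | rfl | rfl <;> assumption
    have h8 := Finset.card_le_card h7
    omega
  sp := by
    intro T hT hTn
    have hvT : v ∉ T := fun h => Finset.notMem_erase v S (hT h)
    by_cases hxy : x ∈ T ∧ y ∈ T
    · have h4 := hnb T hT hxy.1 hxy.2
      have h5 : cnt ((E.erase i2).erase i3) (Function.update en i1 s(x, y)) T
          ≤ cnt E en T + 1 := by
        unfold cnt
        calc _ ≤ (insert i1 (E.filter (fun i => ∀ x ∈ en i, x ∈ T))).card := by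
              apply Finset.card_le_card
              intro i hi
              rw [Finset.mem_filter, Finset.mem_erase, Finset.mem_erase] at hi
              rw [Finset.mem_insert]
              by_cases hi1 : i = i1
              · exact Or.inl hi1
              · rw [Function.update_of_ne hi1] at hi
                exact Or.inr (Finset.mem_filter.mpr ⟨hi.1.2.2, hi.2⟩)
          _ ≤ _ := Finset.card_insert_le _ _
      omega
    · have h4 := hG.sp T (hT.trans (Finset.erase_subset _ _)) hTn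
      have h5 : cnt ((E.erase i2).erase i3) (Function.update en i1 s(x, y)) T
          ≤ cnt E en T := by
        unfold cnt
        apply Finset.card_le_card
        intro i hi
        rw [Finset.mem_filter, Finset.mem_erase, Finset.mem_erase] at hi
        by_cases hi1 : i = i1
        · exfalso
          subst hi1
          rw [Function.update_self] at hi
          exact hxy ⟨hi.2 x (by simp), hi.2 y (by simp)⟩
        · rw [Function.update_of_ne hi1] at hi
          exact Finset.mem_filter.mpr ⟨hi.1.2.2, hi.2⟩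
      omega

theorem Lst.op1 {S : Finset V} {E : Finset ι} {en : ι → Sym2 V}
    {v x y z b c d : V} {i1 i2 i3 : ι}
    (h1 : i1 ∈ E) (h2 : i2 ∈ E) (h3 : i3 ∈ E) (h12 : i1 ≠ i2) (h13 : i1 ≠ i3) (h23 : i2 ≠ i3)
    (e1 : en i1 = s(v, x)) (e2 : en i2 = s(v, y)) (e3 : en i3 = s(v, z))
    (hxy : x ≠ y) (hz : z ∈ S.erase v)
    (hL : Lst S E en v b c d) (hb : b ≠ v) (hc : c ≠ v) (hd : d ≠ v) :
    Lst (S.erase v) ((E.erase i2).erase i3) (Function.update en i1 s(x, y)) z b c d := by
  obtain ⟨hvS, hbS, hcS, hdS, hL⟩ := hL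
  refine ⟨hz, Finset.mem_erase.mpr ⟨hb, hbS⟩, Finset.mem_erase.mpr ⟨hc, hcS⟩,
    Finset.mem_erase.mpr ⟨hd, hdS⟩, ?_⟩
  intro w hw
  rw [Finset.mem_erase] at hw
  have hw1 := hL w hw.2
  set R := ((E.erase i1).erase i2).erase i3 with hR
  have r1 : i1 ∉ R := by simp [hR]
  have r2 : i2 ∉ R := by simp [hR]
  have r3 : i3 ∉ R := by simp [hR]
  have hE : E = insert i1 (insert i2 (insert i3 R)) := by
    ext i
    simp only [hR, Finset.mem_insert, Finset.mem_erase]
    constructor
    · intro hi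
      by_cases a1 : i = i1
      · exact Or.inl a1
      · by_cases a2 : i = i2
        · exact Or.inr (Or.inl a2)
        · by_cases a3 : i = i3
          · exact Or.inr (Or.inr (Or.inl a3))
          · exact Or.inr (Or.inr (Or.inr ⟨a3, a2, a1, hi⟩))
    · rintro (rfl | rfl | rfl | h)
      · exact h1
      · exact h2
      · exact h3
      · exact h.2.2.2
  have hE' : (E.erase i2).erase i3 = insert i1 R := by
    ext i
    simp only [hR, Finset.mem_insert, Finset.mem_erase]
    constructor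
    · rintro ⟨a3, a2, hi⟩
      by_cases a1 : i = i1
      · exact Or.inl a1
      · exact Or.inr ⟨a3, a2, a1, hi⟩
    · rintro (rfl | h)
      · exact ⟨h13, h12, h1⟩
      · exact ⟨h.1, h.2.1, h.2.2.2⟩
  have hd1 : dg E en w = (if w ∈ en i1 then 1 else 0) + ((if w ∈ en i2 then 1 else 0) +
      ((if w ∈ en i3 then 1 else 0) + dg R en w)) := by
    rw [hE, dg_insert, dg_insert, dg_insert]
    · exact r3
    · simp [r2, h23]
    · simp [r1, h12, h13]
  have hd2 : dg ((E.erase i2).erase i3) (Function.update en i1 s(x, y)) w =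
      (if w ∈ (s(x, y) : Sym2 V) then 1 else 0) + dg R en w := by
    rw [hE', dg_insert r1, Function.update_self]
    congr 1
    apply dg_congr
    intro i hi
    rw [Function.update_of_ne]
    rintro rfl; exact r1 hi
  rw [e1, e2, e3] at hd1
  have hwv : w ≠ v := hw.1
  simp only [Sym2.mem_iff, hwv, false_or] at hd1 hd2
  unfold mul4 at hw1 ⊢
  rw [hd2]
  rw [hd1] at hw1
  simp only [hwv, if_false] at hw1
  by_cases q1 : w = x
  · have q2 : w ≠ y := fun h => hxy (q1.symm.trans h)
    simp only [q1, true_or, if_true] at hw1 ⊢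
    rw [q1] at q2
    simp only [q2, if_false] at hw1
    omega
  · by_cases q2 : w = y
    · have q1' : y ≠ x := fun h => hxy h.symm
      simp only [q2, or_true, if_true] at hw1 ⊢
      simp only [q1', if_false] at hw1
      omega
    · simp only [q1, q2, or_self, if_false] at hw1 ⊢
      omega

/-- deletion of a vertex of degree two. -/
theorem Good.op2 {S : Finset V} {E : Finset ι} {en : ι → Sym2 V} (hG : Good S E en)
    {v : V} {i1 i2 : ι} (hv : v ∈ S) (hS : 2 ≤ S.card)
    (h1 : i1 ∈ E) (h2 : i2 ∈ E) (h12 : i1 ≠ i2)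
    (hall : ∀ i ∈ E, v ∈ en i → i = i1 ∨ i = i2) :
    Good (S.erase v) ((E.erase i1).erase i2) en where
  sub := by
    intro i hi a ha
    rw [Finset.mem_erase, Finset.mem_erase] at hi
    rw [Finset.mem_erase]
    refine ⟨?_, hG.sub i hi.2.2 a ha⟩
    rintro rfl
    rcases hall i hi.2.2 ha with h | h
    · exact hi.2.1 h
    · exact hi.1 h
  tot := by
    have h4 : i2 ∈ E.erase i1 := Finset.mem_erase.mpr ⟨h12.symm, h2⟩
    rw [Finset.card_erase_of_mem h4, Finset.card_erase_of_mem h1, Finset.card_erase_of_mem hv]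
    have h5 := hG.tot
    omega
  sp := by
    intro T hT hTn
    have h4 := hG.sp T (hT.trans (Finset.erase_subset _ _)) hTn
    have h5 : cnt ((E.erase i1).erase i2) en T ≤ cnt E en T := by
      unfold cnt
      apply Finset.card_le_card
      intro i hi
      rw [Finset.mem_filter, Finset.mem_erase, Finset.mem_erase] at hi
      exact Finset.mem_filter.mpr ⟨hi.1.2.2, hi.2⟩
    omega

theorem Lst.op2 {S : Finset V} {E : Finset ι} {en : ι → Sym2 V}
    {v x y c d : V} {i1 i2 : ι}
    (h1 : i1 ∈ E) (h2 : i2 ∈ E) (h12 : i1 ≠ i2)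
    (e1 : en i1 = s(v, x)) (e2 : en i2 = s(v, y))
    (hx : x ∈ S.erase v) (hy : y ∈ S.erase v)
    (hL : Lst S E en v v c d) (hc : c ≠ v) (hd : d ≠ v) :
    Lst (S.erase v) ((E.erase i1).erase i2) en x y c d := by
  obtain ⟨hvS, hbS, hcS, hdS, hL⟩ := hL
  refine ⟨hx, hy, Finset.mem_erase.mpr ⟨hc, hcS⟩, Finset.mem_erase.mpr ⟨hd, hdS⟩, ?_⟩
  intro w hw
  rw [Finset.mem_erase] at hw
  have hw1 := hL w hw.2
  set R := (E.erase i1).erase i2 with hR
  have r1 : i1 ∉ R := by simp [hR]
  have r2 : i2 ∉ R := by simp [hR]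
  have hE : E = insert i1 (insert i2 R) := by
    ext i
    simp only [hR, Finset.mem_insert, Finset.mem_erase]
    constructor
    · intro hi
      by_cases a1 : i = i1
      · exact Or.inl a1
      · by_cases a2 : i = i2
        · exact Or.inr (Or.inl a2)
        · exact Or.inr (Or.inr ⟨a2, a1, hi⟩)
    · rintro (rfl | rfl | h)
      · exact h1
      · exact h2
      · exact h.2.2
  have hd1 : dg E en w = (if w ∈ en i1 then 1 else 0) + ((if w ∈ en i2 then 1 else 0) +
      dg R en w) := by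
    rw [hE, dg_insert, dg_insert]
    · exact r2
    · simp [r1, h12]
  rw [e1, e2] at hd1
  have hwv : w ≠ v := hw.1
  simp only [Sym2.mem_iff, hwv, false_or] at hd1
  unfold mul4 at hw1 ⊢
  rw [hd1] at hw1
  simp only [hwv, if_false] at hw1
  omega

end Pool.Agent.Lib.MP_bad31e_co
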