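import Mathlib
import Pool.Agent.Lib.MP_bad31e_co.Count

open Finset
open scoped Classical

namespace Pool.Agent.Lib.MP_bad31e_co

universe u w

variable {V : Type u} {ι : Type w}

/-- contraction map: all of `X` goes to `p`. -/
noncomputable def phi (X : Finset V) (p v : V) : V := if v ∈ X then p else v

noncomputable def Sc (S X : Finset V) (p : V) : Finset V := insert p (S \ X)

noncomputable def Ec (E : Finset ι) (en : ι → Sym2 V) (X : Finset V) : Finset ι :=
  E.filter (fun i => ¬ ∀ x ∈ en i, x ∈ X)

noncomputable def EX (E : Finset ι) (en : ι → Sym2 V) (X : Finset V) : Finset ι :=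
  E.filter (fun i => ∀ x ∈ en i, x ∈ X)

noncomputable def enc (en : ι → Sym2 V) (X : Finset V) (p : V) : ι → Sym2 V :=
  fun i => (en i).map (phi X p)

theorem phi_mem {X : Finset V} {p v : V} (h : v ∈ X) : phi X p v = p := by
  unfold phi; simp [h]

theorem phi_notMem {X : Finset V} {p v : V} (h : v ∉ X) : phi X p v = v := by
  unfold phi; simp [h]

theorem phi_eq_p {X : Finset V} {p v : V} (hp : p ∈ X) (h : phi X p v = p) : v ∈ X := by
  by_contra hv
  rw [phi_notMem hv] at h
  exact hv (h ▸ hp)

theorem phi_eq_out {X : Finset V} {p v w : V} (hp : p ∈ X) (hw : w ∉ X) (h : phi X p v = w) :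
    v = w := by
  by_cases hv : v ∈ X
  · rw [phi_mem hv] at h; exact absurd (h ▸ hp) hw
  · rwa [phi_notMem hv] at h

theorem Good.contract {S : Finset V} {E : Finset ι} {en : ι → Sym2 V} (hG : Good S E en)
    {X : Finset V} {p : V} (hX : X ⊆ S) (hp : p ∈ X) (ht : cnt E en X + 2 = 2 * X.card) :
    Good (Sc S X p) (Ec E en X) (enc en X p) where
  sub := by
    intro i hi a ha
    unfold enc at ha
    rw [Sym2.mem_map] at ha
    obtain ⟨b, hb, rfl⟩ := ha
    have hbS := hG.sub i (Finset.mem_filter.mp hi).1 b hb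
    unfold Sc
    by_cases hbX : b ∈ X
    · rw [phi_mem hbX]; simp
    · rw [phi_notMem hbX]; simp [hbS, hbX]
  tot := by
    have h1 : (Ec E en X).card + cnt E en X = E.card := by
      unfold Ec cnt
      rw [add_comm]
      exact Finset.card_filter_add_card_filter_not _
    have h2 : (Sc S X p).card = S.card - X.card + 1 := by
      unfold Sc
      rw [Finset.card_insert_of_notMem (by simp [hp]), Finset.card_sdiff_of_subset hX]
    have h3 := hG.tot
    have h4 := Finset.card_le_card hX
    have h5 : 0 < X.card := Finset.card_pos.mpr ⟨p, hp⟩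
    omega
  sp := by
    intro T hT hTn
    by_cases hpT : p ∈ T
    · have hsub : (T.erase p) ∪ X ⊆ S := by
        intro a ha
        rw [Finset.mem_union, Finset.mem_erase] at ha
        rcases ha with ha | ha
        · have := hT ha.2
          unfold Sc at this
          rw [Finset.mem_insert, Finset.mem_sdiff] at this
          rcases this with h | h
          · exact absurd h ha.1
          · exact h.1
        · exact hX ha
      have hdisj : Disjoint (T.erase p) X := by
        rw [Finset.disjoint_left]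
        intro a ha haX
        rw [Finset.mem_erase] at ha
        have := hT ha.2
        unfold Sc at this
        rw [Finset.mem_insert, Finset.mem_sdiff] at this
        rcases this with h | h
        · exact ha.1 h
        · exact h.2 haX
      have h1 := hG.sp _ hsub ⟨p, by simp [hp]⟩
      rw [Finset.card_union_of_disjoint hdisj, Finset.card_erase_of_mem hpT] at h1
      have h2 : cnt (Ec E en X) (enc en X p) T + cnt E en X ≤ cnt E en ((T.erase p) ∪ X) := by
        unfold cnt
        rw [← Finset.card_union_of_disjoint]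
        · apply Finset.card_le_card
          intro i hi
          rw [Finset.mem_union, Finset.mem_filter, Finset.mem_filter] at hi
          rw [Finset.mem_filter]
          rcases hi with ⟨hi1, hi2⟩ | ⟨hi1, hi2⟩
          · refine ⟨(Finset.mem_filter.mp hi1).1, ?_⟩
            intro a ha
            rw [Finset.mem_union, Finset.mem_erase]
            by_cases haX : a ∈ X
            · exact Or.inr haX
            · left
              have h3 := hi2 (phi X p a) (by unfold enc; rw [Sym2.mem_map]; exact ⟨a, ha, rfl⟩)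
              rw [phi_notMem haX] at h3
              exact ⟨fun h => haX (h ▸ hp), h3⟩
          · exact ⟨hi1, fun a ha => Finset.mem_union_right _ (hi2 a ha)⟩
        · rw [Finset.disjoint_left]
          intro i hi hi'
          rw [Finset.mem_filter] at hi hi'
          exact (Finset.mem_filter.mp hi.1).2 hi'.2
      have h3 : 0 < T.card := Finset.card_pos.mpr hTn
      omega
    · have hsub : T ⊆ S := by
        intro a ha
        have := hT ha
        unfold Sc at this
        rw [Finset.mem_insert, Finset.mem_sdiff] at this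
        rcases this with h | h
        · exact absurd (h ▸ ha) hpT
        · exact h.1
      have h1 := hG.sp T hsub hTn
      have h2 : cnt (Ec E en X) (enc en X p) T ≤ cnt E en T := by
        unfold cnt
        apply Finset.card_le_card
        intro i hi
        rw [Finset.mem_filter] at hi ⊢
        refine ⟨(Finset.mem_filter.mp hi.1).1, ?_⟩
        intro a ha
        have h3 := hi.2 (phi X p a) (by unfold enc; rw [Sym2.mem_map]; exact ⟨a, ha, rfl⟩)
        by_cases haX : a ∈ X
        · rw [phi_mem haX] at h3; exact absurd h3 hpT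
        · rwa [phi_notMem haX] at h3
      omega

theorem Good.restrict {S : Finset V} {E : Finset ι} {en : ι → Sym2 V} (hG : Good S E en)
    {X : Finset V} (hX : X ⊆ S) (ht : cnt E en X + 2 = 2 * X.card) :
    Good X (EX E en X) en where
  sub := by
    intro i hi a ha
    exact (Finset.mem_filter.mp hi).2 a ha
  tot := ht
  sp := by
    intro T hT hTn
    have h1 := hG.sp T (hT.trans hX) hTn
    have h2 : cnt (EX E en X) en T ≤ cnt E en T := by
      unfold cnt
      apply Finset.card_le_card
      intro i hi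
      rw [Finset.mem_filter] at hi ⊢
      exact ⟨(Finset.mem_filter.mp hi.1).1, hi.2⟩
    omega

theorem card_ends {X : Finset V} {a b : V} (hab : a ≠ b) :
    ∑ v ∈ X, (if v ∈ (s(a, b) : Sym2 V) then 1 else 0) =
      (if a ∈ X then 1 else 0) + (if b ∈ X then 1 else 0) := by
  have h1 : ∀ v ∈ X, (if v ∈ (s(a, b) : Sym2 V) then 1 else 0) =
      (if v = a then 1 else 0) + (if v = b then 1 else 0) := by
    intro v _
    by_cases h : v = a
    · have h' : v ≠ b := fun h' => hab (h.symm.trans h')
      simp [h, Sym2.mem_iff, hab]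
    · simp [h, Sym2.mem_iff]
  rw [Finset.sum_congr rfl h1, Finset.sum_add_distrib, Finset.sum_ite_eq', Finset.sum_ite_eq']

theorem sum_dg (E : Finset ι) (en : ι → Sym2 V) (X : Finset V) :
    ∑ v ∈ X, dg E en v = ∑ i ∈ E, ∑ v ∈ X, (if v ∈ en i then 1 else 0) := by
  unfold dg
  rw [Finset.sum_comm]
  apply Finset.sum_congr rfl
  intro v _
  rw [Finset.card_filter]

/-- the number of edges leaving `X`. -/
theorem sum_dg_contract {S : Finset V} {E : Finset ι} {en : ι → Sym2 V} (hG : Good S E en)
    {X : Finset V} {p : V} (hp : p ∈ X) :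
    ∑ v ∈ X, dg E en v = 2 * cnt E en X + dg (Ec E en X) (enc en X p) p := by
  rw [sum_dg]
  have h1 : 2 * cnt E en X = ∑ i ∈ E, (if (∀ x ∈ en i, x ∈ X) then 2 else 0) := by
    unfold cnt
    rw [Finset.card_filter, Finset.mul_sum]
    apply Finset.sum_congr rfl
    intro i _
    split_ifs <;> simp
  have h2 : dg (Ec E en X) (enc en X p) p =
      ∑ i ∈ E, (if (¬ ∀ x ∈ en i, x ∈ X) ∧ p ∈ enc en X p i then 1 else 0) := by
    unfold dg Ec
    rw [Finset.filter_filter, Finset.card_filter]
  rw [h1, h2, ← Finset.sum_add_distrib]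
  apply Finset.sum_congr rfl
  intro i hi
  induction' hh : en i using Sym2.ind with a b
  have hab : a ≠ b := by
    rintro rfl
    exact hG.noloop hi hh
  rw [card_ends hab]
  have h3 : p ∈ enc en X p i ↔ (a ∈ X ∨ b ∈ X) := by
    unfold enc
    rw [hh, Sym2.map_mk, Sym2.mem_iff]
    constructor
    · rintro (h | h)
      · exact Or.inl (phi_eq_p hp h.symm)
      · exact Or.inr (phi_eq_p hp h.symm)
    · rintro (h | h)
      · exact Or.inl (phi_mem h).symm
      · exact Or.inr (phi_mem h).symm
  have h4 : (∀ x ∈ (s(a, b) : Sym2 V), x ∈ X) ↔ (a ∈ X ∧ b ∈ X) := by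
    constructor
    · intro h; exact ⟨h a (by simp), h b (by simp)⟩
    · rintro ⟨h, h'⟩ x hx
      rw [Sym2.mem_iff] at hx
      rcases hx with rfl | rfl <;> assumption
  simp only [h3, h4]
  by_cases ha : a ∈ X <;> by_cases hb : b ∈ X <;> simp [ha, hb]

theorem Lst.contract {S : Finset V} {E : Finset ι} {en : ι → Sym2 V} (hG : Good S E en)
    {X : Finset V} {p : V} (hX : X ⊆ S) (hp : p ∈ X) (ht : cnt E en X + 2 = 2 * X.card)
    {y b c d : V} (hy : y ∉ X) (hL : Lst S E en y b c d) :
    Lst (Sc S X p) (Ec E en X) (enc en X p) y (phi X p b) (phi X p c) (phi X p d) := by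
  obtain ⟨hyS, hbS, hcS, hdS, hL⟩ := hL
  have hmem : ∀ v ∈ S, phi X p v ∈ Sc S X p := by
    intro v hv
    unfold Sc
    by_cases hvX : v ∈ X
    · rw [phi_mem hvX]; simp
    · rw [phi_notMem hvX]; simp [hv, hvX]
  refine ⟨by unfold Sc; simp [hyS, hy], hmem b hbS, hmem c hcS, hmem d hdS, ?_⟩
  intro v hv
  have hpv : ∀ b : V, v ≠ p → v ∉ X → ((v = phi X p b) ↔ v = b) := by
    intro b hvp hvX
    constructor
    · intro h; exact (phi_eq_out hp hvX h.symm).symm
    · intro h; subst h; exact (phi_notMem hvX).symm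
  unfold Sc at hv
  rw [Finset.mem_insert, Finset.mem_sdiff] at hv
  by_cases hvp : v = p
  · subst hvp
    have h1 := sum_dg_contract hG (X := X) hp
    have h2 : ∑ v ∈ X, dg E en v + ∑ v ∈ X, mul4 v y b c d = 4 * X.card := by
      rw [← Finset.sum_add_distrib]
      rw [Finset.sum_congr rfl (fun v hv => hL v (hX hv))]
      simp [mul_comm]
    have h3 : ∑ v ∈ X, mul4 v y b c d = (if b ∈ X then 1 else 0) + (if c ∈ X then 1 else 0)
        + (if d ∈ X then 1 else 0) := by
      unfold mul4
      rw [Finset.sum_add_distrib, Finset.sum_add_distrib, Finset.sum_add_distrib,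
        Finset.sum_ite_eq', Finset.sum_ite_eq', Finset.sum_ite_eq', Finset.sum_ite_eq']
      simp [hy]
    have h4 : ∀ b : V, (v = phi X v b) ↔ b ∈ X := by
      intro b
      constructor
      · intro h; exact phi_eq_p hp h.symm
      · intro h; exact (phi_mem h).symm
    have h5 : v ≠ y := fun h => hy (h ▸ hp)
    unfold mul4
    simp only [h4, h5, if_false]
    rw [h3] at h2
    omega
  · have hv' := hv.resolve_left hvp
    have h1 := hL v hv'.1
    have h2 : dg (Ec E en X) (enc en X p) v = dg E en v := by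
      unfold dg Ec
      rw [Finset.filter_filter]
      congr 1
      apply Finset.filter_congr
      intro i hi
      unfold enc
      rw [Sym2.mem_map]
      constructor
      · rintro ⟨_, a, ha, hav⟩
        have := phi_eq_out hp hv'.2 hav
        exact this ▸ ha
      · intro hvi
        exact ⟨fun h => hv'.2 (h v hvi), v, hvi, phi_notMem hv'.2⟩
    rw [h2]
    unfold mul4 at h1 ⊢
    simp only [hpv _ hvp hv'.2]
    exact h1

/-- completing a list of three missing half-edges. -/
theorem exists_fourth {X : Finset V} {E' : Finset ι} {en : ι → Sym2 V} (hG : Good X E' en)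
    {p q b : V} (hp : p ∈ X) (hq : q ∈ X) (hb : b ∈ X)
    (h : ∀ v ∈ X, dg E' en v + ((if v = p then 1 else 0) + (if v = q then 1 else 0) +
      (if v = b then 1 else 0)) ≤ 4) :
    ∃ c : V, Lst X E' en p q b c := by
  have h1 : ∑ v ∈ X, dg E' en v = 2 * E'.card := by
    rw [sum_dg, Finset.card_eq_sum_ones, Finset.mul_sum]
    apply Finset.sum_congr rfl
    intro i hi
    induction' hh : en i using Sym2.ind with a b
    have hab : a ≠ b := by
      rintro rfl
      exact hG.noloop hi hh
    rw [card_ends hab]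
    have ha := hG.sub i hi a (by rw [hh]; simp)
    have hb := hG.sub i hi b (by rw [hh]; simp)
    simp [ha, hb]
  have h2 : ∑ v ∈ X, (4 - (dg E' en v + ((if v = p then 1 else 0) + (if v = q then 1 else 0) +
      (if v = b then 1 else 0)))) = 1 := by
    have h3 : ∑ v ∈ X, (4 - (dg E' en v + ((if v = p then 1 else 0) + (if v = q then 1 else 0) +
      (if v = b then 1 else 0)))) + ∑ v ∈ X, (dg E' en v + ((if v = p then 1 else 0) +
      (if v = q then 1 else 0) + (if v = b then 1 else 0))) = 4 * X.card := by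
      rw [← Finset.sum_add_distrib]
      rw [Finset.sum_congr rfl (fun v hv => Nat.sub_add_cancel (h v hv))]
      simp [mul_comm]
    have h4 : ∑ v ∈ X, (dg E' en v + ((if v = p then 1 else 0) +
      (if v = q then 1 else 0) + (if v = b then 1 else 0))) = 2 * E'.card + 3 := by
      rw [Finset.sum_add_distrib, Finset.sum_add_distrib, Finset.sum_add_distrib,
        Finset.sum_ite_eq', Finset.sum_ite_eq', Finset.sum_ite_eq', h1]
      simp [hp, hq, hb]
    have h5 := hG.tot
    omega
  obtain ⟨c, hc, hc1⟩ : ∃ c ∈ X, (4 - (dg E' en c + ((if c = p then 1 else 0) +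
      (if c = q then 1 else 0) + (if c = b then 1 else 0)))) ≠ 0 := by
    apply Finset.exists_ne_zero_of_sum_ne_zero
    rw [h2]; exact one_ne_zero
  have h6 := Finset.sum_erase_add X (fun v => (4 - (dg E' en v + ((if v = p then 1 else 0) +
      (if v = q then 1 else 0) + (if v = b then 1 else 0))))) hc
  rw [h2] at h6
  have h7 : ∀ v ∈ X.erase c, (4 - (dg E' en v + ((if v = p then 1 else 0) +
      (if v = q then 1 else 0) + (if v = b then 1 else 0)))) = 0 := by
    apply Finset.sum_eq_zero_iff.mp
    omega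
  refine ⟨c, hp, hq, hb, hc, ?_⟩
  intro v hv
  unfold mul4
  have h9 := h v hv
  by_cases hvc : v = c
  · subst hvc
    simp only [if_true]
    omega
  · have h8 := h7 v (Finset.mem_erase.mpr ⟨hvc, hv⟩)
    simp only [hvc, if_false]
    omega

theorem lift_out {S : Finset V} {E : Finset ι} {en : ι → Sym2 V} (hG : Good S E en)
    {X : Finset V} {p v w : V} (hp : p ∈ X) (hv : v ∉ X) {i : ι} (hi : i ∈ E)
    (h : enc en X p i = s(v, w)) : ∃ b ∈ S, en i = s(v, b) ∧ phi X p b = w := by
  unfold enc at h
  induction' hh : en i using Sym2.ind with a b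
  rw [hh, Sym2.map_mk, Sym2.eq_iff] at h
  have ha := hG.sub i hi a (by rw [hh]; simp)
  have hb := hG.sub i hi b (by rw [hh]; simp)
  rcases h with ⟨h1, h2⟩ | ⟨h1, h2⟩
  · have := phi_eq_out hp hv h1
    subst this
    exact ⟨b, hb, rfl, h2⟩
  · have := phi_eq_out hp hv h2
    subst this
    exact ⟨a, ha, Sym2.eq_swap, h1⟩

/-- inserting a solution for `X` in place of the contracted vertex. -/
theorem expand {S : Finset V} {E : Finset ι} {en : ι → Sym2 V} (hG : Good S E en)
    {X : Finset V} {p σ τ σX τX τG : V} (hX : X ⊆ S) (hp : p ∈ X)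
    {rk : V → ℤ} {up dn : V → ι} (h : Sol (Sc S X p) (Ec E en X) (enc en X p) σ τ rk up dn)
    {rkX : V → ℤ} {upX dnX : V → ι} (hS : Sol X (EX E en X) en σX τX rkX upX dnX)
    (hσX : σX ∈ X) (hτX : τX ∈ X) (hpσ : p ≠ σ)
    (hdnp : ∃ w, w ∉ X ∧ en (dn p) = s(σX, w))
    (hcase : (p ≠ τ ∧ τG = τ ∧ ∃ w, w ∉ X ∧ en (up p) = s(τX, w)) ∨ (p = τ ∧ τG = τX)) :
    ∃ (rk' : V → ℤ) (up' dn' : V → ι), Sol S E en σ τG rk' up' dn' ∧
      (∀ v, v ∉ X → up' v = up v ∧ dn' v = dn v) := by
  obtain ⟨B, hB⟩ : ∃ B : ℤ, ∀ v ∈ X, |rkX v| ≤ B := by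
    obtain ⟨m, hm⟩ := (X.image (fun w => |rkX w|)).exists_le
    exact ⟨m, fun w hw => hm _ (Finset.mem_image_of_mem _ hw)⟩
  have hB0 : 0 ≤ B := (abs_nonneg _).trans (hB p hp)
  have hB' : ∀ v ∈ X, -B ≤ rkX v ∧ rkX v ≤ B := fun v hv => abs_le.mp (hB v hv)
  have hlt : ∀ a b : ℤ, a < b → (2 * B + 1) * a + (2 * B + 1) ≤ (2 * B + 1) * b := by
    intro a b hab
    nlinarith
  have hpc : p ∈ Sc S X p := by unfold Sc; simp
  have hout : ∀ v ∈ S, v ∉ X → v ∈ Sc S X p := by
    intro v hv hvX; unfold Sc; simp [hv, hvX]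
  have hEc : ∀ i ∈ Ec E en X, i ∈ E := fun i hi => (Finset.mem_filter.mp hi).1
  have hEX : ∀ i ∈ EX E en X, i ∈ E := fun i hi => (Finset.mem_filter.mp hi).1
  have hdis : ∀ i ∈ Ec E en X, ∀ j ∈ EX E en X, i ≠ j := by
    intro i hi j hj hij
    subst hij
    exact (Finset.mem_filter.mp hi).2 (Finset.mem_filter.mp hj).2
  have hrk : ∀ v ∈ X, ∀ w ∈ S, w ∉ X → rk p < rk w →
      (2 * B + 1) * rk p + rkX v < (2 * B + 1) * rk w := by
    intro v hv w _ _ hlt'
    have h1 := hlt _ _ hlt'
    have h2 := hB' v hv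
    omega
  have hrk' : ∀ v ∈ X, ∀ w ∈ S, w ∉ X → rk w < rk p →
      (2 * B + 1) * rk w < (2 * B + 1) * rk p + rkX v := by
    intro v hv w _ _ hlt'
    have h1 := hlt _ _ hlt'
    have h2 := hB' v hv
    omega
  -- up p
  have hupp : ∀ w, w ∉ X → p ≠ τ → en (up p) = s(τX, w) → w ∈ S ∧ up p ∈ E ∧ rk p < rk w := by
    intro w hw hpτ he
    obtain ⟨h1, w', hw', h2, h3⟩ := h.hup p hpc hpτ
    refine ⟨hG.sub _ (hEc _ h1) w (by rw [he]; simp), hEc _ h1, ?_⟩
    unfold enc at h2
    rw [he, Sym2.map_mk, phi_mem hτX, phi_notMem hw, Sym2.eq_iff] at h2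
    rcases h2 with ⟨_, h4⟩ | ⟨h4, h5⟩
    · rw [h4]; exact h3
    · exact absurd (h5 ▸ hp) hw
  have hdnp' : ∀ w, w ∉ X → en (dn p) = s(σX, w) → w ∈ S ∧ dn p ∈ E ∧ rk w < rk p := by
    intro w hw he
    obtain ⟨h1, w', hw', h2, h3⟩ := h.hdn p hpc hpσ
    refine ⟨hG.sub _ (hEc _ h1) w (by rw [he]; simp), hEc _ h1, ?_⟩
    unfold enc at h2
    rw [he, Sym2.map_mk, phi_mem hσX, phi_notMem hw, Sym2.eq_iff] at h2
    rcases h2 with ⟨_, h4⟩ | ⟨h4, h5⟩
    · rw [h4]; exact h3
    · exact absurd (h5 ▸ hp) hw
  have hτG : ∀ v, v ≠ τG → v ∉ X → v ≠ τ := by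
    intro v hv hvX hvτ
    rcases hcase with ⟨_, h2, _⟩ | ⟨h1, _⟩
    · exact hv (hvτ.trans h2.symm)
    · exact hvX (by rw [hvτ, ← h1]; exact hp)
  have hτG' : τX ≠ τG → p ≠ τ := by
    intro hne
    rcases hcase with ⟨h1, _, _⟩ | ⟨_, h2⟩
    · exact h1
    · exact absurd h2.symm hne
  have hupc : ∀ v ∈ S, v ∉ X → v ≠ τG → up v ∈ Ec E en X := by
    intro v hv hvX hvt
    exact (h.hup v (hout v hv hvX) (hτG v hvt hvX)).1
  have hdnc : ∀ v ∈ S, v ∉ X → v ≠ σ → dn v ∈ Ec E en X := by
    intro v hv hvX hvt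
    exact (h.hdn v (hout v hv hvX) hvt).1
  refine ⟨fun v => if v ∈ X then (2 * B + 1) * rk p + rkX v else (2 * B + 1) * rk v,
    fun v => if v ∈ X then (if v = τX then up p else upX v) else up v,
    fun v => if v ∈ X then (if v = σX then dn p else dnX v) else dn v, ⟨?_, ?_, ?_, ?_⟩, ?_⟩
  · intro a ha b hb hab
    by_cases haX : a ∈ X
    · by_cases hbX : b ∈ X
      · simp only [haX, hbX, if_true] at hab
        exact hS.inj a haX b hbX (by omega)
      · simp only [haX, hbX, if_true, if_false] at hab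
        exfalso
        rcases lt_trichotomy (rk p) (rk b) with h1 | h1 | h1
        · have := hrk a haX b hb hbX h1; omega
        · exact hbX (h.inj p hpc b (hout b hb hbX) h1 ▸ hp)
        · have := hrk' a haX b hb hbX h1; omega
    · by_cases hbX : b ∈ X
      · simp only [haX, hbX, if_true, if_false] at hab
        exfalso
        rcases lt_trichotomy (rk p) (rk a) with h1 | h1 | h1
        · have := hrk b hbX a ha haX h1; omega
        · exact haX (h.inj p hpc a (hout a ha haX) h1 ▸ hp)
        · have := hrk' b hbX a ha haX h1; omega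
      · simp only [haX, hbX, if_false] at hab
        have h1 : rk a = rk b := by
          apply mul_left_cancel₀ (a := 2 * B + 1) (by omega) hab
        exact h.inj a (hout a ha haX) b (hout b hb hbX) h1
  · intro v hv hvt
    by_cases hvX : v ∈ X
    · by_cases hvτ : v = τX
      · subst hvτ
        have hpτ := hτG' hvt
        rcases hcase with ⟨_, _, w, hw, he⟩ | ⟨h1, _⟩
        · obtain ⟨h1, h2, h3⟩ := hupp w hw hpτ he
          refine ⟨by simpa [hvX] using h2, w, h1, by simpa [hvX] using he, ?_⟩
          simp only [hvX, hw, if_true, if_false]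
          exact hrk v hvX w h1 hw h3
        · exact absurd h1 hpτ
      · obtain ⟨h1, w, hw, h2, h3⟩ := hS.hup v hvX hvτ
        refine ⟨by simpa [hvX, hvτ] using hEX _ h1, w, hX hw, by simpa [hvX, hvτ] using h2, ?_⟩
        simp only [hvX, hw, if_true]
        omega
    · have hvτ := hτG v hvt hvX
      obtain ⟨h1, w, hw, h2, h3⟩ := h.hup v (hout v hv hvX) hvτ
      obtain ⟨b, hb, h4, h5⟩ := lift_out hG hp hvX (hEc _ h1) h2
      refine ⟨by simpa [hvX] using hEc _ h1, b, hb, by simpa [hvX] using h4, ?_⟩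
      by_cases hbX : b ∈ X
      · rw [phi_mem hbX] at h5
        simp only [hvX, hbX, if_true, if_false]
        exact hrk' b hbX v hv hvX (h5 ▸ h3)
      · rw [phi_notMem hbX] at h5
        simp only [hvX, hbX, if_false]
        have := hlt _ _ (h5 ▸ h3)
        omega
  · intro v hv hvσ
    by_cases hvX : v ∈ X
    · by_cases hvs : v = σX
      · subst hvs
        obtain ⟨w, hw, he⟩ := hdnp
        obtain ⟨h1, h2, h3⟩ := hdnp' w hw he
        refine ⟨by simpa [hvX] using h2, w, h1, by simpa [hvX] using he, ?_⟩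
        simp only [hvX, hw, if_true, if_false]
        exact hrk' v hvX w h1 hw h3
      · obtain ⟨h1, w, hw, h2, h3⟩ := hS.hdn v hvX hvs
        refine ⟨by simpa [hvX, hvs] using hEX _ h1, w, hX hw, by simpa [hvX, hvs] using h2, ?_⟩
        simp only [hvX, hw, if_true]
        omega
    · obtain ⟨h1, w, hw, h2, h3⟩ := h.hdn v (hout v hv hvX) hvσ
      obtain ⟨b, hb, h4, h5⟩ := lift_out hG hp hvX (hEc _ h1) h2
      refine ⟨by simpa [hvX] using hEc _ h1, b, hb, by simpa [hvX] using h4, ?_⟩
      by_cases hbX : b ∈ X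
      · rw [phi_mem hbX] at h5
        simp only [hvX, hbX, if_true, if_false]
        exact hrk b hbX v hv hvX (h5 ▸ h3)
      · rw [phi_notMem hbX] at h5
        simp only [hvX, hbX, if_false]
        have := hlt _ _ (h5 ▸ h3)
        omega
  · intro a ha hat b hb hbs
    by_cases haX : a ∈ X
    · by_cases haτ : a = τX
      · have hpτ : p ≠ τ := hτG' (haτ ▸ hat)
        have hupE : up p ∈ Ec E en X := (h.hup p hpc hpτ).1
        by_cases hbX : b ∈ X
        · by_cases hbσ : b = σX
          · simp only [haX, hbX, haτ, hbσ, if_true, hσX, hτX]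
            exact h.hne p hpc hpτ p hpc hpσ
          · simp only [haX, hbX, haτ, hbσ, if_true, if_false, hτX]
            exact hdis _ hupE _ (hS.hdn b hbX hbσ).1
        · simp only [hbX, haτ, if_true, if_false, hτX]
          exact h.hne p hpc hpτ b (hout b hb hbX) hbs
      · have hupE := (hS.hup a haX haτ).1
        by_cases hbX : b ∈ X
        · by_cases hbσ : b = σX
          · simp only [haX, hbσ, haτ, if_true, if_false, hσX]
            exact (hdis _ (h.hdn p hpc hpσ).1 _ hupE).symm
          · simp only [haX, hbX, haτ, hbσ, if_true, if_false]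
            exact hS.hne a haX haτ b hbX hbσ
        · simp only [haX, hbX, haτ, if_true, if_false]
          exact (hdis _ (hdnc b hb hbX hbs) _ hupE).symm
    · have hupE := hupc a ha haX hat
      by_cases hbX : b ∈ X
      · by_cases hbσ : b = σX
        · simp only [haX, hbσ, if_true, if_false, hσX]
          exact h.hne a (hout a ha haX) (hτG a hat haX) p hpc hpσ
        · simp only [haX, hbX, hbσ, if_true, if_false]
          exact hdis _ hupE _ (hS.hdn b hbX hbσ).1
      · simp only [haX, hbX, if_false]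
        exact h.hne a (hout a ha haX) (hτG a hat haX) b (hout b hb hbX) hbs
  · intro v hvX
    simp [hvX]

end Pool.Agent.Lib.MP_bad31e_co
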