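import Mathlib
import Pool.Agent.Lib.MP_bad31e_co.Contract

open Finset
open scoped Classical

namespace Pool.Agent.Lib.MP_bad31e_co

universe u w

variable {V : Type u} {ι : Type w}

/-- at least two of the three perfect matchings on `a, b, c, d` are contained in `R`. -/
def C4 (R : V → V → Prop) (a b c d : V) : Prop :=
  ((R a b ∧ R c d) ∧ (R a c ∧ R b d)) ∨ ((R a b ∧ R c d) ∧ (R a d ∧ R b c)) ∨
    ((R a c ∧ R b d) ∧ (R a d ∧ R b c))

def Two (R : V → V → Prop) (b c d : V) : Prop :=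
  (R b c ∧ R b d) ∨ (R b c ∧ R c d) ∨ (R b d ∧ R c d)

theorem C4.two {R : V → V → Prop} {a b c d : V} (h : C4 R a b c d) : Two R b c d := by
  unfold C4 at h; unfold Two; tauto

theorem Two.imp {R R' : V → V → Prop} {b c d : V} (h : Two R b c d)
    (h1 : R b c → R' b c) (h2 : R b d → R' b d) (h3 : R c d → R' c d) : Two R' b c d := by
  unfold Two at *; tauto

theorem Two.imp' {R R' : V → V → Prop} {b c d b' c' d' : V} (h : Two R b c d)
    (h1 : R b c → R' b' c') (h2 : R b d → R' b' d') (h3 : R c d → R' c' d') :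
    Two R' b' c' d' := by
  unfold Two at *; tauto

theorem Two.swap12 {R : V → V → Prop} (hs : ∀ x y, R x y → R y x) {b c d : V}
    (h : Two R b c d) : Two R c b d := by
  have h1 := hs b c; have h2 := hs c b
  unfold Two at *; tauto

theorem Two.swap23 {R : V → V → Prop} (hs : ∀ x y, R x y → R y x) {b c d : V}
    (h : Two R b c d) : Two R b d c := by
  have h1 := hs c d; have h2 := hs d c
  unfold Two at *; tauto

theorem C4.swap12 {R : V → V → Prop} (hs : ∀ x y, R x y → R y x) {a b c d : V}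
    (h : C4 R a b c d) : C4 R b a c d := by
  have h1 := hs a b
  unfold C4 at *; tauto

theorem C4.swap23 {R : V → V → Prop} (hs : ∀ x y, R x y → R y x) {a b c d : V}
    (h : C4 R a b c d) : C4 R a c b d := by
  have h1 := hs b c
  unfold C4 at *; tauto

theorem C4.swap34 {R : V → V → Prop} (hs : ∀ x y, R x y → R y x) {a b c d : V}
    (h : C4 R a b c d) : C4 R a b d c := by
  have h1 := hs c d
  unfold C4 at *; tauto

theorem C4_of_two {R : V → V → Prop} (hs : ∀ x y, R x y → R y x) {a b c d : V}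
    (h1 : Two R b c d) (h2 : Two R a c d) (h3 : Two R a b d) (h4 : Two R a b c) :
    C4 R a b c d := by
  unfold Two at *; unfold C4
  by_cases r1 : R a b <;> by_cases r2 : R a c <;> by_cases r3 : R a d <;>
    by_cases r4 : R b c <;> by_cases r5 : R b d <;> by_cases r6 : R c d <;>
    simp_all

theorem Lst.swap12 {S : Finset V} {E : Finset ι} {en : ι → Sym2 V} {a b c d : V}
    (h : Lst S E en a b c d) : Lst S E en b a c d := by
  obtain ⟨h1, h2, h3, h4, h5⟩ := h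
  refine ⟨h2, h1, h3, h4, fun v hv => ?_⟩
  have := h5 v hv
  unfold mul4 at *; omega

theorem Lst.swap23 {S : Finset V} {E : Finset ι} {en : ι → Sym2 V} {a b c d : V}
    (h : Lst S E en a b c d) : Lst S E en a c b d := by
  obtain ⟨h1, h2, h3, h4, h5⟩ := h
  refine ⟨h1, h3, h2, h4, fun v hv => ?_⟩
  have := h5 v hv
  unfold mul4 at *; omega

theorem Lst.swap34 {S : Finset V} {E : Finset ι} {en : ι → Sym2 V} {a b c d : V}
    (h : Lst S E en a b c d) : Lst S E en a b d c := by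
  obtain ⟨h1, h2, h3, h4, h5⟩ := h
  refine ⟨h1, h2, h4, h3, fun v hv => ?_⟩
  have := h5 v hv
  unfold mul4 at *; omega

theorem dg_mono {E E' : Finset ι} {en : ι → Sym2 V} (h : E ⊆ E') (v : V) :
    dg E en v ≤ dg E' en v := by
  unfold dg
  exact Finset.card_le_card (Finset.filter_subset_filter _ h)

theorem dg_split (E : Finset ι) (en : ι → Sym2 V) (X : Finset V) (v : V) :
    dg E en v = dg (EX E en X) en v + dg (Ec E en X) en v := by
  unfold dg EX Ec
  rw [← Finset.card_union_of_disjoint]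
  · congr 1
    ext i
    simp only [Finset.mem_union, Finset.mem_filter]
    tauto
  · rw [Finset.disjoint_left]
    intro i hi hi'
    simp only [Finset.mem_filter] at hi hi'
    exact hi'.1.2 hi.1.2

/-- a vertex `y` (neither source nor sink) of degree three with two parallel edges. -/
theorem par {S : Finset V} {E : Finset ι} {en : ι → Sym2 V} {σ τ y : V} {k l1 l2 : ι}
    (hy : y ∈ S) (hyσ : y ≠ σ) (hyτ : y ≠ τ) (hk : k ∈ E) (hl1 : l1 ∈ E)
    (hk1 : k ≠ l1) (hk2 : k ≠ l2) (h12 : l1 ≠ l2)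
    (hall : ∀ i ∈ E, y ∈ en i → i = k ∨ i = l1 ∨ i = l2)
    (hpar : en l1 = en k ∨ en l1 = en l2) (h : Feas S E en σ τ) : FeasO S E en y k σ τ := by
  obtain ⟨hσ, hτ, rk, up, dn, h⟩ := h
  obtain ⟨hu1, w, hw, hu2, hu3⟩ := h.hup y hy hyτ
  obtain ⟨hd1, w', hw', hd2, hd3⟩ := h.hdn y hy hyσ
  have hne : en (up y) ≠ en (dn y) := by
    intro hcon
    rw [hu2, hd2, Sym2.eq_iff] at hcon
    rcases hcon with ⟨_, h2⟩ | ⟨h1, h2⟩
    · subst h2; omega
    · subst h2; omega
  have hne' := h.hne y hy hyτ y hy hyσ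
  rcases hall _ hu1 (by rw [hu2]; simp) with ha | ha | ha
  · exact ⟨hσ, hτ, rk, up, dn, h, Or.inl ⟨hyτ, ha⟩⟩
  · rcases hall _ hd1 (by rw [hd2]; simp) with hb | hb | hb
    · exact ⟨hσ, hτ, rk, up, dn, h, Or.inr ⟨hyσ, hb⟩⟩
    · exact absurd (ha.trans hb.symm) hne'
    · rcases hpar with hp | hp
      · refine ⟨hσ, hτ, rk, _, _, h.swap hl1 hk hp, Or.inl ⟨hyτ, ?_⟩⟩
        simp only [ha, Equiv.swap_apply_left]
      · rw [ha, hb] at hne; exact absurd hp hne
  · rcases hall _ hd1 (by rw [hd2]; simp) with hb | hb | hb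
    · exact ⟨hσ, hτ, rk, up, dn, h, Or.inr ⟨hyσ, hb⟩⟩
    · rcases hpar with hp | hp
      · refine ⟨hσ, hτ, rk, _, _, h.swap hl1 hk hp, Or.inr ⟨hyσ, ?_⟩⟩
        simp only [hb, Equiv.swap_apply_left]
      · rw [ha, hb] at hne; exact absurd hp.symm hne
    · exact absurd (ha.trans hb.symm) hne'

/-- contraction step, with the labels at `y` in a fixed position. -/
theorem B3core' {S : Finset V} {E : Finset ι} {en : ι → Sym2 V} (hG : Good S E en)
    {X : Finset V} (hX : X ⊆ S) {p pl pl' : V} (hp : p ∈ X) (hpl : pl ∈ X) (hpl' : pl' ∈ X)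
    (ht : cnt E en X + 2 = 2 * X.card)
    {y : V} {k l l' : ι} (hy : y ∈ S) (hyX : y ∉ X) (hl : l ∈ E) (hl' : l' ∈ E)
    (hk1 : k ≠ l) (hk2 : k ≠ l') (h12 : l ≠ l')
    (e1 : en l = s(y, pl)) (e2 : en l' = s(y, pl'))
    {σ τ : V} (hσ : σ ∈ S) (hτ : τ ∈ S) (hσy : σ ≠ y)
    (hdτ : ∀ v ∈ S, dg E en v + (if v = τ then 1 else 0) ≤ 4)
    (hF : ∀ b ∈ X, (∀ v ∈ X, dg (EX E en X) en v + ((if v = pl then 1 else 0) +
      (if v = pl' then 1 else 0) + (if v = b then 1 else 0)) ≤ 4) →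
      Feas X (EX E en X) en pl b ∨ Feas X (EX E en X) en pl' b)
    {rk : V → ℤ} {up dn : V → ι}
    (h : Sol (Sc S X p) (Ec E en X) (enc en X p) (phi X p σ) (phi X p τ) rk up dn)
    (hlt : rk y < rk p) (hyφτ : y ≠ phi X p τ) (hupy : up y = l) (hdny : dn y = k) :
    FeasO S E en y k σ τ := by
  have hyc : y ∈ Sc S X p := by unfold Sc; simp [hy, hyX]
  have hpc : p ∈ Sc S X p := by unfold Sc; simp
  have hmem : ∀ v ∈ S, phi X p v ∈ Sc S X p := by
    intro v hv
    unfold Sc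
    by_cases hvX : v ∈ X
    · rw [phi_mem hvX]; simp
    · rw [phi_notMem hvX]; simp [hv, hvX]
  have hEc : ∀ i ∈ Ec E en X, i ∈ E := fun i hi => (Finset.mem_filter.mp hi).1
  have hyp : y ≠ p := fun h => hyX (h ▸ hp)
  have hlc : l ∈ Ec E en X := by
    unfold Ec
    rw [Finset.mem_filter]
    exact ⟨hl, fun h => hyX (h y (by rw [e1]; simp))⟩
  have hlc' : l' ∈ Ec E en X := by
    unfold Ec
    rw [Finset.mem_filter]
    exact ⟨hl', fun h => hyX (h y (by rw [e2]; simp))⟩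
  have el : enc en X p l = s(y, p) := by
    unfold enc; rw [e1, Sym2.map_mk, phi_notMem hyX, phi_mem hpl]
  have el' : enc en X p l' = s(y, p) := by
    unfold enc; rw [e2, Sym2.map_mk, phi_notMem hyX, phi_mem hpl']
  -- the owner of l'
  have hown : p ≠ phi X p σ ∧ dn p = l' := by
    rcases h.cover (hmem σ hσ) (hmem τ hτ) (hG.contract hX hp ht).tot hlc' with
      ⟨v, hv, hvt, hv1⟩ | ⟨v, hv, hvt, hv1⟩
    · exfalso
      obtain ⟨_, w, hw, h2, h3⟩ := h.hup v hv hvt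
      rw [hv1, el', Sym2.eq_iff] at h2
      rcases h2 with ⟨h4, h5⟩ | ⟨h4, h5⟩
      · subst h4; exact h12 (hupy.symm.trans hv1)
      · subst h4; subst h5; omega
    · obtain ⟨_, w, hw, h2, h3⟩ := h.hdn v hv hvt
      rw [hv1, el', Sym2.eq_iff] at h2
      rcases h2 with ⟨h4, h5⟩ | ⟨h4, h5⟩
      · subst h4; subst h5; omega
      · subst h5; exact ⟨hvt, hv1⟩
  obtain ⟨hpσ, hdnp⟩ := hown
  have hσX : σ ∉ X := fun h => hpσ (phi_mem h).symm
  have hφσ : phi X p σ = σ := phi_notMem hσX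
  -- the vertex b
  have hb : ∃ b ∈ X, (∀ v ∈ X, dg (EX E en X) en v + ((if v = pl then 1 else 0) +
      (if v = pl' then 1 else 0) + (if v = b then 1 else 0)) ≤ 4) ∧
      ((p ≠ phi X p τ ∧ τ = phi X p τ ∧ up p ≠ l ∧ up p ≠ l' ∧
        ∃ w, w ∉ X ∧ en (up p) = s(b, w)) ∨ (p = phi X p τ ∧ τ = b)) := by
    by_cases hpτ : p = phi X p τ
    · have hτX : τ ∈ X := phi_eq_p hp hpτ.symm
      refine ⟨τ, hτX, ?_, Or.inr ⟨hpτ, rfl⟩⟩
      intro v hv
      have h1 := hdτ v (hX hv)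
      have h2 := dg_split E en X v
      have h3 : dg (insert l {l'}) en v ≤ dg (Ec E en X) en v := by
        apply dg_mono
        intro i hi
        simp only [Finset.mem_insert, Finset.mem_singleton] at hi
        rcases hi with rfl | rfl <;> assumption
      have h4 : dg (insert l {l'}) en v = (if v = pl then 1 else 0) +
          (if v = pl' then 1 else 0) := by
        have hvy : v ≠ y := fun h => hyX (h ▸ hv)
        rw [dg_insert (by simpa using h12), ← insert_empty_eq, dg_insert (by simp), e1, e2]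
        simp [Sym2.mem_iff, hvy, dg]
      omega
    · obtain ⟨hj1, w, hw, hj2, hj3⟩ := h.hup p hpc hpτ
      have hwp : w ≠ p := by rintro rfl; omega
      have hjl : up p ≠ l := by
        intro hcon
        exact hyp (h.up_inj hyc hpc hyφτ hpτ (hupy.trans hcon.symm))
      have hjl' : up p ≠ l' := by
        intro hcon
        exact h.hne p hpc hpτ p hpc hpσ (hcon.trans hdnp.symm)
      have hτX : τ ∉ X := fun h => hpτ (phi_mem h).symm
      have hex : ∃ b ∈ X, ∃ w', w' ∉ X ∧ en (up p) = s(b, w') := by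
        unfold enc at hj2
        induction' hh : en (up p) using Sym2.ind with a b
        rw [hh, Sym2.map_mk, Sym2.eq_iff] at hj2
        rcases hj2 with ⟨h1, h2⟩ | ⟨h1, h2⟩
        · refine ⟨a, phi_eq_p hp h1, b, ?_, rfl⟩
          intro hbX; rw [phi_mem hbX] at h2; exact hwp h2.symm
        · refine ⟨b, phi_eq_p hp h2, a, ?_, Sym2.eq_swap⟩
          intro haX; rw [phi_mem haX] at h1; exact hwp h1.symm
      obtain ⟨b, hbX, w', hw'X, hej⟩ := hex
      refine ⟨b, hbX, ?_, Or.inl ⟨hpτ, (phi_notMem hτX).symm, hjl, hjl', w', hw'X, hej⟩⟩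
      intro v hv
      have h1 := hdτ v (hX hv)
      have h2 := dg_split E en X v
      have h3 : dg (insert l (insert l' {up p})) en v ≤ dg (Ec E en X) en v := by
        apply dg_mono
        intro i hi
        simp only [Finset.mem_insert, Finset.mem_singleton] at hi
        rcases hi with rfl | rfl | rfl <;> assumption
      have h4 : dg (insert l (insert l' {up p})) en v = (if v = pl then 1 else 0) +
          ((if v = pl' then 1 else 0) + (if v = b then 1 else 0)) := by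
        have hvy : v ≠ y := fun h => hyX (h ▸ hv)
        have hvw : v ≠ w' := fun h => hw'X (h ▸ hv)
        rw [dg_insert (by simpa using ⟨h12, hjl.symm⟩), dg_insert (by simpa using hjl'.symm),
          ← insert_empty_eq, dg_insert (by simp), e1, e2, hej]
        simp [Sym2.mem_iff, hvy, hvw, dg]
      omega
  obtain ⟨b, hbX, hbd, hbc⟩ := hb
  have hfin : ∀ (rk' : V → ℤ) (up' dn' : V → ι), Sol S E en σ τ rk' up' dn' →
      (∀ v, v ∉ X → dn' v = dn v) → FeasO S E en y k σ τ := by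
    intro rk' up' dn' hS hdn
    exact ⟨hσ, hτ, rk', up', dn', hS, Or.inr ⟨hσy.symm, by rw [hdn y hyX, hdny]⟩⟩
  rcases hF b hbX hbd with hFe | hFe
  · obtain ⟨_, _, rkX, upX, dnX, hS⟩ := hFe
    have h' := h.swap hlc hlc' (el.trans el'.symm)
    obtain ⟨rk', up', dn', hE1, hE2⟩ := expand hG hX hp h' hS hpl hbX hpσ
      ⟨y, hyX, by rw [hdnp, Equiv.swap_apply_right, e1]; exact Sym2.eq_swap⟩ (τG := τ) (by
        rcases hbc with ⟨c1, c2, c3, c4, c5⟩ | ⟨c1, c2⟩
        · left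
          refine ⟨c1, c2, ?_⟩
          rw [Equiv.swap_apply_of_ne_of_ne c3 c4]
          exact c5
        · right; exact ⟨c1, c2⟩)
    rw [hφσ] at hE1
    refine ⟨hσ, hτ, rk', up', dn', hE1, Or.inr ⟨hσy.symm, ?_⟩⟩
    rw [(hE2 y hyX).2, hdny, Equiv.swap_apply_of_ne_of_ne hk1 hk2]
  · obtain ⟨_, _, rkX, upX, dnX, hS⟩ := hFe
    obtain ⟨rk', up', dn', hE1, hE2⟩ := expand hG hX hp h hS hpl' hbX hpσ
      ⟨y, hyX, by rw [hdnp, e2]; exact Sym2.eq_swap⟩ (τG := τ) (by
        rcases hbc with ⟨c1, c2, c3, c4, c5⟩ | ⟨c1, c2⟩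
        · left
          exact ⟨c1, c2, c5⟩
        · right; exact ⟨c1, c2⟩)
    rw [hφσ] at hE1
    exact hfin rk' up' dn' hE1 (fun v hv => (hE2 v hv).2)

theorem B3core {S : Finset V} {E : Finset ι} {en : ι → Sym2 V} (hG : Good S E en)
    {X : Finset V} (hX : X ⊆ S) {p q : V} (hp : p ∈ X) (hq : q ∈ X)
    (ht : cnt E en X + 2 = 2 * X.card)
    {y : V} {k l1 l2 : ι} (hy : y ∈ S) (hyX : y ∉ X) (hl1 : l1 ∈ E)
    (hl2 : l2 ∈ E) (hk1 : k ≠ l1) (hk2 : k ≠ l2) (h12 : l1 ≠ l2)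
    (e1 : en l1 = s(y, p)) (e2 : en l2 = s(y, q))
    (hall : ∀ i ∈ E, y ∈ en i → i = k ∨ i = l1 ∨ i = l2)
    {σ τ : V} (hσ : σ ∈ S) (hτ : τ ∈ S) (hσy : σ ≠ y) (hτy : τ ≠ y)
    (hdτ : ∀ v ∈ S, dg E en v + (if v = τ then 1 else 0) ≤ 4)
    (hIH : ∀ b c, Lst X (EX E en X) en p q b c → C4 (Feas X (EX E en X) en) p q b c)
    {rk : V → ℤ} {up dn : V → ι}
    (h : Sol (Sc S X p) (Ec E en X) (enc en X p) (phi X p σ) (phi X p τ) rk up dn)
    (hlt : rk y < rk p) :
    FeasO S E en y k σ τ := by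
  have hyc : y ∈ Sc S X p := by unfold Sc; simp [hy, hyX]
  have hpc : p ∈ Sc S X p := by unfold Sc; simp
  have hEc : ∀ i ∈ Ec E en X, i ∈ E := fun i hi => (Finset.mem_filter.mp hi).1
  have hyp : y ≠ p := fun h => hyX (h ▸ hp)
  have hyτ : y ≠ phi X p τ := fun h => hτy (phi_eq_out hp hyX h.symm)
  have hyσ : y ≠ phi X p σ := fun h => hσy (phi_eq_out hp hyX h.symm)
  have el : enc en X p l1 = s(y, p) := by
    unfold enc; rw [e1, Sym2.map_mk, phi_notMem hyX, phi_mem hp]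
  have el' : enc en X p l2 = s(y, p) := by
    unfold enc; rw [e2, Sym2.map_mk, phi_notMem hyX, phi_mem hq]
  obtain ⟨hu1, w, hw, hu2, hu3⟩ := h.hup y hyc hyτ
  obtain ⟨hd1, w', hw', hd2, hd3⟩ := h.hdn y hyc hyσ
  have hF : ∀ b ∈ X, (∀ v ∈ X, dg (EX E en X) en v + ((if v = p then 1 else 0) +
      (if v = q then 1 else 0) + (if v = b then 1 else 0)) ≤ 4) →
      Feas X (EX E en X) en p b ∨ Feas X (EX E en X) en q b := by
    intro b hb hbd
    obtain ⟨c, hc⟩ := exists_fourth (hG.restrict hX ht) hp hq hb hbd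
    have := hIH b c hc
    unfold C4 at this
    tauto
  have hdk : dn y = k := by
    obtain ⟨b, hb, h4, h5⟩ := lift_out hG hp hyX (hEc _ hd1) hd2
    rcases hall _ (hEc _ hd1) (by rw [h4]; simp) with h6 | h6 | h6
    · exact h6
    · exfalso
      rw [h6, el, Sym2.eq_iff] at hd2
      rcases hd2 with ⟨_, h7⟩ | ⟨_, h8⟩
      · subst h7; omega
      · exact hyp h8.symm
    · exfalso
      rw [h6, el', Sym2.eq_iff] at hd2
      rcases hd2 with ⟨_, h7⟩ | ⟨_, h8⟩
      · subst h7; omega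
      · exact hyp h8.symm
  obtain ⟨b, hb, h4, h5⟩ := lift_out hG hp hyX (hEc _ hu1) hu2
  rcases hall _ (hEc _ hu1) (by rw [h4]; simp) with h6 | h6 | h6
  · exact absurd (h6.trans hdk.symm) (h.hne y hyc hyτ y hyc hyσ)
  · exact B3core' hG hX hp hp hq ht hy hyX hl1 hl2 hk1 hk2 h12 e1 e2 hσ hτ hσy hdτ hF h hlt hyτ
      h6 hdk
  · refine B3core' hG hX hp hq hp ht hy hyX hl2 hl1 hk2 hk1 h12.symm e2 e1 hσ hτ hσy hdτ ?_ h hlt
      hyτ h6 hdk
    intro b hb hbd
    rcases hF b hb (fun v hv => by have := hbd v hv; omega) with h7 | h7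
    · exact Or.inr h7
    · exact Or.inl h7

theorem B3pair {S : Finset V} {E : Finset ι} {en : ι → Sym2 V} (hG : Good S E en)
    {X : Finset V} (hX : X ⊆ S) {p q : V} (hp : p ∈ X) (hq : q ∈ X)
    (ht : cnt E en X + 2 = 2 * X.card)
    {y : V} {k l1 l2 : ι} (hy : y ∈ S) (hyX : y ∉ X) (hl1 : l1 ∈ E)
    (hl2 : l2 ∈ E) (hk1 : k ≠ l1) (hk2 : k ≠ l2) (h12 : l1 ≠ l2)
    (e1 : en l1 = s(y, p)) (e2 : en l2 = s(y, q))
    (hall : ∀ i ∈ E, y ∈ en i → i = k ∨ i = l1 ∨ i = l2)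
    {σ τ : V} (hσ : σ ∈ S) (hτ : τ ∈ S) (hσy : σ ≠ y) (hτy : τ ≠ y)
    (hdσ : ∀ v ∈ S, dg E en v + (if v = σ then 1 else 0) ≤ 4)
    (hdτ : ∀ v ∈ S, dg E en v + (if v = τ then 1 else 0) ≤ 4)
    (hIH : ∀ b c, Lst X (EX E en X) en p q b c → C4 (Feas X (EX E en X) en) p q b c)
    (h : Feas (Sc S X p) (Ec E en X) (enc en X p) (phi X p σ) (phi X p τ)) :
    FeasO S E en y k σ τ := by
  obtain ⟨_, _, rk, up, dn, h⟩ := h
  have hyc : y ∈ Sc S X p := by unfold Sc; simp [hy, hyX]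
  have hpc : p ∈ Sc S X p := by unfold Sc; simp
  have hyp : y ≠ p := fun h => hyX (h ▸ hp)
  rcases lt_trichotomy (rk y) (rk p) with h1 | h1 | h1
  · exact B3core hG hX hp hq ht hy hyX hl1 hl2 hk1 hk2 h12 e1 e2 hall hσ hτ hσy hτy hdτ hIH h h1
  · exact absurd (h.inj y hyc p hpc h1) hyp
  · exact (B3core hG hX hp hq ht hy hyX hl1 hl2 hk1 hk2 h12 e1 e2 hall hτ hσ hτy hσy hdσ hIH
      h.symm (by simpa using h1)).symm

end Pool.Agent.Lib.MP_bad31e_co
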