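import Mathlib
import Pool.Agent.Lib.MP_bad31e_co.Main

open Finset
open scoped Classical

namespace Pool.Agent.Lib.MP_bad31e_co

universe u w

variable {V : Type u} {ι : Type w}

def IHyp (V : Type u) (ι : Type w) (n : ℕ) : Prop :=
  ∀ (S : Finset V) (E : Finset ι) (en : ι → Sym2 V), S.card < n → 2 ≤ S.card → Good S E en →
    ∀ a b c d, Lst S E en a b c d → C4 (Feas S E en) a b c d

theorem feas_symm (S : Finset V) (E : Finset ι) (en : ι → Sym2 V) :
    ∀ x y, Feas S E en x y → Feas S E en y x := fun _ _ h => h.symm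

theorem red3 {S : Finset V} {E : Finset ι} {en : ι → Sym2 V} (hG : Good S E en)
    {n : ℕ} (IH : IHyp V ι n) (hn : S.card ≤ n) (hS : 3 ≤ S.card)
    {v x y z b c d : V} {i1 i2 i3 : ι} (hv : v ∈ S)
    (h1 : i1 ∈ E) (h2 : i2 ∈ E) (h3 : i3 ∈ E) (h12 : i1 ≠ i2) (h13 : i1 ≠ i3) (h23 : i2 ≠ i3)
    (hx : x ∈ S.erase v) (hy : y ∈ S.erase v) (hz : z ∈ S.erase v)
    (hxy : x ≠ y) (hzx : z ≠ x) (hzy : z ≠ y)
    (hall : ∀ i ∈ E, v ∈ en i → i = i1 ∨ i = i2 ∨ i = i3)
    (e1 : en i1 = s(v, x)) (e2 : en i2 = s(v, y)) (e3 : en i3 = s(v, z))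
    (hnb : ∀ T, T ⊆ S.erase v → x ∈ T → y ∈ T → cnt E en T + 3 ≤ 2 * T.card)
    (hL : Lst S E en v b c d) (hb : b ≠ v) (hc : c ≠ v) (hd : d ≠ v) :
    Two (FeasO S E en v i3) b c d := by
  have hG' := hG.op1 hv h1 h2 h3 h12 h13 h23 hx hy hall e1 hnb
  have hL' := hL.op1 h1 h2 h3 h12 h13 h23 e1 e2 e3 hxy hz hb hc hd
  have hcard : (S.erase v).card = S.card - 1 := Finset.card_erase_of_mem hv
  have h4 := IH _ _ _ (by omega) (by omega) hG' _ _ _ _ hL'
  have hlift : ∀ σ τ, Feas (S.erase v) ((E.erase i2).erase i3)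
      (Function.update en i1 s(x, y)) σ τ → FeasO S E en v i3 σ τ := fun σ τ h =>
    L1 hv hx hy hz hzx hzy h1 h2 h3 h12 h13 h23 e1 e2 e3 hG'.tot h
  exact h4.two.imp (hlift _ _) (hlift _ _) (hlift _ _)

theorem tri {S : Finset V} {E : Finset ι} {en : ι → Sym2 V} (hG : Good S E en)
    (IH : IHyp V ι (S.card + 1)) (hS : 3 ≤ S.card)
    {y x p q b c d : V} {k l1 l2 : ι} (hy : y ∈ S)
    (hk : k ∈ E) (hl1 : l1 ∈ E) (hl2 : l2 ∈ E) (hk1 : k ≠ l1) (hk2 : k ≠ l2) (h12 : l1 ≠ l2)
    (hx : x ∈ S.erase y) (hp : p ∈ S.erase y) (hq : q ∈ S.erase y)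
    (hall : ∀ i ∈ E, y ∈ en i → i = k ∨ i = l1 ∨ i = l2)
    (ek : en k = s(y, x)) (e1 : en l1 = s(y, p)) (e2 : en l2 = s(y, q))
    (hL : Lst S E en y b c d) (hb : b ≠ y) (hc : c ≠ y) (hd : d ≠ y)
    (hbc : b ≠ c) (hbd : b ≠ d) (hcd : c ≠ d) :
    Two (FeasO S E en y k) b c d := by
  by_cases hpx : p = x
  · have h4 := IH S E en (by omega) (by omega) hG _ _ _ _ hL
    exact h4.two.imp
      (par hy hb.symm hc.symm hk hl1 hk1 hk2 h12 hall (Or.inl (by rw [e1, ek, hpx])))
      (par hy hb.symm hd.symm hk hl1 hk1 hk2 h12 hall (Or.inl (by rw [e1, ek, hpx])))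
      (par hy hc.symm hd.symm hk hl1 hk1 hk2 h12 hall (Or.inl (by rw [e1, ek, hpx])))
  by_cases hqx : q = x
  · have h4 := IH S E en (by omega) (by omega) hG _ _ _ _ hL
    have hall' : ∀ i ∈ E, y ∈ en i → i = k ∨ i = l2 ∨ i = l1 := by
      intro i hi hyi
      rcases hall i hi hyi with h | h | h
      · exact Or.inl h
      · exact Or.inr (Or.inr h)
      · exact Or.inr (Or.inl h)
    exact h4.two.imp
      (par hy hb.symm hc.symm hk hl2 hk2 hk1 h12.symm hall' (Or.inl (by rw [e2, ek, hqx])))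
      (par hy hb.symm hd.symm hk hl2 hk2 hk1 h12.symm hall' (Or.inl (by rw [e2, ek, hqx])))
      (par hy hc.symm hd.symm hk hl2 hk2 hk1 h12.symm hall' (Or.inl (by rw [e2, ek, hqx])))
  by_cases hpq : p = q
  · have h4 := IH S E en (by omega) (by omega) hG _ _ _ _ hL
    exact h4.two.imp
      (par hy hb.symm hc.symm hk hl1 hk1 hk2 h12 hall (Or.inr (by rw [e1, e2, hpq])))
      (par hy hb.symm hd.symm hk hl1 hk1 hk2 h12 hall (Or.inr (by rw [e1, e2, hpq])))
      (par hy hc.symm hd.symm hk hl1 hk1 hk2 h12 hall (Or.inr (by rw [e1, e2, hpq])))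
  by_cases hnb : ∀ T, T ⊆ S.erase y → p ∈ T → q ∈ T → cnt E en T + 3 ≤ 2 * T.card
  · refine red3 hG IH (by omega) hS hy hl1 hl2 hk h12 hk1.symm hk2.symm hp hq hx hpq
      (Ne.symm hpx) (Ne.symm hqx) ?_ e1 e2 ek hnb hL hb hc hd
    intro i hi hyi
    rcases hall i hi hyi with h | h | h
    · exact Or.inr (Or.inr h)
    · exact Or.inl h
    · exact Or.inr (Or.inl h)
  · push Not at hnb
    obtain ⟨X, hXe, hpX, hqX, hlt⟩ := hnb
    have hXS : X ⊆ S := hXe.trans (Finset.erase_subset _ _)
    have hyX : y ∉ X := fun h => Finset.notMem_erase y S (hXe h)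
    have hsp := hG.sp X hXS ⟨p, hpX⟩
    have ht : cnt E en X + 2 = 2 * X.card := by omega
    have hX2 : 2 ≤ X.card := by
      have : ({p, q} : Finset V) ⊆ X := by
        intro a ha
        simp only [Finset.mem_insert, Finset.mem_singleton] at ha
        rcases ha with rfl | rfl <;> assumption
      have := Finset.card_le_card this
      rw [Finset.card_pair hpq] at this
      exact this
    have hXlt : X.card < S.card := by
      apply Finset.card_lt_card
      rw [Finset.ssubset_iff_of_subset hXS]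
      exact ⟨y, hy, hyX⟩
    have hcard : (Sc S X p).card = S.card - X.card + 1 := by
      unfold Sc
      rw [Finset.card_insert_of_notMem (by simp [hpX]), Finset.card_sdiff_of_subset hXS]
    have hGc := hG.contract hXS hpX ht
    have hLc := hL.contract hG hXS hpX ht hyX
    have h4 := IH _ _ _ (by omega) (by omega) hGc _ _ _ _ hLc
    have hGX := hG.restrict hXS ht
    have hIHX : ∀ b c, Lst X (EX E en X) en p q b c → C4 (Feas X (EX E en X) en) p q b c :=
      fun b c h => IH _ _ _ (by omega) hX2 hGX _ _ _ _ h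
    obtain ⟨_, hbS, hcS, hdS, hLd⟩ := hL
    have hdb : ∀ v ∈ S, dg E en v + (if v = b then 1 else 0) ≤ 4 := by
      intro v hv; have := hLd v hv; unfold mul4 at this; omega
    have hdc : ∀ v ∈ S, dg E en v + (if v = c then 1 else 0) ≤ 4 := by
      intro v hv; have := hLd v hv; unfold mul4 at this; omega
    have hdd : ∀ v ∈ S, dg E en v + (if v = d then 1 else 0) ≤ 4 := by
      intro v hv; have := hLd v hv; unfold mul4 at this; omega
    exact h4.two.imp'
      (B3pair hG hXS hpX hqX ht hy hyX hl1 hl2 hk1 hk2 h12 e1 e2 hall hbS hcS hb hc hdb hdc hIHX)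
      (B3pair hG hXS hpX hqX ht hy hyX hl1 hl2 hk1 hk2 h12 e1 e2 hall hbS hdS hb hd hdb hdd hIHX)
      (B3pair hG hXS hpX hqX ht hy hyX hl1 hl2 hk1 hk2 h12 e1 e2 hall hcS hdS hc hd hdc hdd hIHX)

theorem caseA {S : Finset V} {E : Finset ι} {en : ι → Sym2 V} (hG : Good S E en)
    (IH : IHyp V ι S.card) (hS : 3 ≤ S.card) {y c d : V} {k : ι}
    (hk : k ∈ E) (hyk : y ∈ en k) (hL : Lst S E en y y c d) (hc : c ≠ y) (hd : d ≠ y) :
    Two (FeasO S E en y k) y c d := by
  have hyS := hL.1
  have hdg : dg E en y = 2 := by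
    have := hL.2.2.2.2 y hyS
    unfold mul4 at this
    simp only [if_true, hc.symm, hd.symm, if_false] at this
    omega
  obtain ⟨i1, i2, x1, x2, h12, h1, h2, hx1, hx2, e1, e2, hall⟩ := hG.labels2 hdg
  -- name the other label l
  have hex : ∃ l : ι, ∃ x x' : V, k ≠ l ∧ l ∈ E ∧ x ∈ S.erase y ∧ x' ∈ S.erase y ∧
      en k = s(y, x) ∧ en l = s(y, x') ∧ ∀ i ∈ E, y ∈ en i → i = k ∨ i = l := by
    rcases hall k hk hyk with h | h
    · subst h
      exact ⟨i2, x1, x2, h12, h2, hx1, hx2, e1, e2, hall⟩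
    · subst h
      exact ⟨i1, x2, x1, h12.symm, h1, hx2, hx1, e2, e1, fun i hi hy => (hall i hi hy).symm⟩
  obtain ⟨l, x, x', hkl, hl, hx, hx', ek, el, hall⟩ := hex
  have hG0 := hG.op2 hyS (by omega) hk hl hkl hall
  have hL0 := hL.op2 hk hl hkl ek el hx hx' hc hd
  have hcard : (S.erase y).card = S.card - 1 := Finset.card_erase_of_mem hyS
  have h4 := IH _ _ _ (by omega) (by omega) hG0 _ _ _ _ hL0
  have hSi : insert y (S.erase y) = S := Finset.insert_erase hyS
  have hyn : y ∉ S.erase y := Finset.notMem_erase y S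
  have hsub : ∀ i ∈ (E.erase k).erase l, i ∈ E := fun i hi =>
    Finset.mem_of_mem_erase (Finset.mem_of_mem_erase hi)
  have hkn : k ∉ (E.erase k).erase l := by simp
  have hln : l ∉ (E.erase k).erase l := by simp
  have hA2 : ∀ τ, Feas (S.erase y) ((E.erase k).erase l) en x' τ → FeasO S E en y k y τ := by
    intro τ h
    have := D2a hyn hx hsub hk hl hkn hln hkl ek el h
    rwa [hSi] at this
  by_cases hxx : x = x'
  · have h5 : Feas (S.erase y) ((E.erase k).erase l) en x' c ∧
        Feas (S.erase y) ((E.erase k).erase l) en x' d := by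
      subst hxx
      unfold C4 at h4; tauto
    left
    exact ⟨hA2 c h5.1, hA2 d h5.2⟩
  · have hA4 : ∀ σ τ, Feas (S.erase y) ((E.erase k).erase l) en σ τ → FeasO S E en y k σ τ := by
      intro σ τ h
      have := D2b hyn hx hx' hxx hsub hk hl hkn hln hkl ek el h
      rwa [hSi] at this
    exact h4.two.imp' (hA2 c) (hA2 d) (hA4 c d)

theorem caseDeg2 {S : Finset V} {E : Finset ι} {en : ι → Sym2 V} (hG : Good S E en)
    (IH : IHyp V ι S.card) (hS : 3 ≤ S.card) {v c d : V}
    (hL : Lst S E en v v c d) : C4 (Feas S E en) v v c d := by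
  have hvS := hL.1
  have h2 := hG.two_le_dg (by omega) hvS
  have h3 := hL.2.2.2.2 v hvS
  have hcv : c ≠ v := by
    rintro rfl
    unfold mul4 at h3
    simp only [if_true] at h3
    omega
  have hdv : d ≠ v := by
    rintro rfl
    unfold mul4 at h3
    simp only [if_true] at h3
    omega
  have hdg : dg E en v = 2 := by
    unfold mul4 at h3
    simp only [if_true, hcv.symm, hdv.symm, if_false] at h3
    omega
  obtain ⟨k, l, x, y, hkl, hk, hl, hx, hy, ek, el, hall⟩ := hG.labels2 hdg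
  have hG0 := hG.op2 hvS (by omega) hk hl hkl hall
  have hL0 := hL.op2 hk hl hkl ek el hx hy hcv hdv
  have hcard : (S.erase v).card = S.card - 1 := Finset.card_erase_of_mem hvS
  have h4 := IH _ _ _ (by omega) (by omega) hG0 _ _ _ _ hL0
  have hSi : insert v (S.erase v) = S := Finset.insert_erase hvS
  have hvn : v ∉ S.erase v := Finset.notMem_erase v S
  have hsub : ∀ i ∈ (E.erase k).erase l, i ∈ E := fun i hi =>
    Finset.mem_of_mem_erase (Finset.mem_of_mem_erase hi)
  have hkn : k ∉ (E.erase k).erase l := by simp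
  have hln : l ∉ (E.erase k).erase l := by simp
  have hA : ∀ τ, Feas (S.erase v) ((E.erase k).erase l) en y τ → Feas S E en v τ := by
    intro τ h
    have := (D2a hvn hx hsub hk hl hkn hln hkl ek el h).feas
    rwa [hSi] at this
  have hB : ∀ τ, Feas (S.erase v) ((E.erase k).erase l) en x τ → Feas S E en v τ := by
    intro τ h
    have := (D2a hvn hy hsub hl hk hln hkn hkl.symm el ek h).feas
    rwa [hSi] at this
  have h5 : Feas S E en v c := by
    have h6 := hA c; have h7 := hB c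
    unfold C4 at h4; tauto
  have h6 : Feas S E en v d := by
    have h6 := hA d; have h7 := hB d
    unfold C4 at h4; tauto
  right; right
  exact ⟨⟨h5, h6⟩, ⟨h6, h5⟩⟩

theorem base2 {S : Finset V} {E : Finset ι} {en : ι → Sym2 V} (hG : Good S E en)
    (hS : S.card = 2) {a b c d : V} (hL : Lst S E en a b c d) : C4 (Feas S E en) a b c d := by
  obtain ⟨u, w, huw, hSe⟩ := Finset.card_eq_two.mp hS
  have hE : E.card = 2 := by have := hG.tot; omega
  obtain ⟨i, j, hij, hEe⟩ := Finset.card_eq_two.mp hE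
  have hen : ∀ l ∈ E, en l = s(u, w) := by
    intro l hl
    induction' hh : en l using Sym2.ind with a b
    have ha := hG.sub l hl a (by rw [hh]; simp)
    have hb := hG.sub l hl b (by rw [hh]; simp)
    have hab : a ≠ b := by rintro rfl; exact hG.noloop hl hh
    rw [hSe] at ha hb
    simp only [Finset.mem_insert, Finset.mem_singleton] at ha hb
    rcases ha with rfl | rfl <;> rcases hb with rfl | rfl
    · exact absurd rfl hab
    · rfl
    · exact Sym2.eq_swap
    · exact absurd rfl hab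
  have hi : i ∈ E := by rw [hEe]; simp
  have hj : j ∈ E := by rw [hEe]; simp
  have hu : u ∈ S := by rw [hSe]; simp
  have hw : w ∈ S := by rw [hSe]; simp
  have hdg : ∀ v ∈ S, dg E en v = 2 := by
    intro v hv
    unfold dg
    rw [Finset.filter_true_of_mem, hE]
    intro l hl
    rw [hen l hl]
    rw [hSe] at hv
    simpa using hv
  have hF : Feas S E en u w := by
    refine ⟨hu, hw, fun v => if v = u then 0 else 1, fun _ => i, fun _ => j, ⟨?_, ?_, ?_, ?_⟩⟩
    · intro a ha b hb hab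
      rw [hSe] at ha hb
      simp only [Finset.mem_insert, Finset.mem_singleton] at ha hb
      rcases ha with rfl | rfl <;> rcases hb with rfl | rfl
      · rfl
      · simp [huw.symm] at hab
      · simp [huw.symm] at hab
      · rfl
    · intro v hv hvw
      rw [hSe] at hv
      simp only [Finset.mem_insert, Finset.mem_singleton] at hv
      have hvu : v = u := hv.resolve_right hvw
      subst hvu
      exact ⟨hi, w, hw, hen i hi, by simp [huw.symm]⟩
    · intro v hv hvu
      rw [hSe] at hv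
      simp only [Finset.mem_insert, Finset.mem_singleton] at hv
      have hvw : v = w := hv.resolve_left hvu
      subst hvw
      exact ⟨hj, u, hu, by rw [hen j hj]; exact Sym2.eq_swap, by simp [huw.symm]⟩
    · intro _ _ _ _ _ _; exact hij
  obtain ⟨ha, hb, hc, hd, hL⟩ := hL
  have h1 := hL u hu
  have h2 := hL w hw
  rw [hdg u hu] at h1
  rw [hdg w hw] at h2
  have hF' := hF.symm
  rw [hSe] at ha hb hc hd
  simp only [Finset.mem_insert, Finset.mem_singleton] at ha hb hc hd
  unfold mul4 at h1 h2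
  unfold C4
  rcases ha with ha | ha <;> rcases hb with hb | hb <;> rcases hc with hc | hc <;>
    rcases hd with hd | hd <;> simp only [ha, hb, hc, hd, if_true, huw, huw.symm, if_false] at h1 h2 ⊢ <;>
    first | omega | tauto

theorem dbl {S : Finset V} {E : Finset ι} {en : ι → Sym2 V} (hG : Good S E en)
    (IH : IHyp V ι S.card) (hS : 4 ≤ S.card) {v x y b c d : V} {k j1 j2 : ι}
    (hv : v ∈ S) (hk : k ∈ E) (hj1 : j1 ∈ E) (hj2 : j2 ∈ E) (hk1 : k ≠ j1) (hk2 : k ≠ j2)
    (h12 : j1 ≠ j2) (hx : x ∈ S.erase v) (hy : y ∈ S.erase v) (hxy : x ≠ y)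
    (ek : en k = s(v, x)) (e1 : en j1 = s(v, y)) (e2 : en j2 = s(v, y))
    (hall : ∀ i ∈ E, v ∈ en i → i = k ∨ i = j1 ∨ i = j2)
    (hL : Lst S E en v b c d) (hb : b ≠ v) (hc : c ≠ v) (hd : d ≠ v)
    (hbc : b ≠ c) (hbd : b ≠ d) (hcd : c ≠ d) : Two (Feas S E en) b c d := by
  have hG' := hG.op1 hv hk hj1 hj2 hk1 hk2 h12 hx hy hall ek
    (fun T hT hxT hyT => hG.blocked hv hk hj1 hj2 hk1 hk2 h12 ek e1 e2 hT hxT hyT hyT)
  have hL' := hL.op1 hk hj1 hj2 hk1 hk2 h12 ek e1 e2 hxy hy hb hc hd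
  have hcard : (S.erase v).card = S.card - 1 := Finset.card_erase_of_mem hv
  set S' := S.erase v with hS'
  set E' := (E.erase j1).erase j2 with hE'
  set en' := Function.update en k s(x, y) with hen'
  have hSi : insert v S' = S := Finset.insert_erase hv
  have hvn : v ∉ S' := Finset.notMem_erase v S
  have hkE' : k ∈ E' := Finset.mem_erase.mpr ⟨hk2, Finset.mem_erase.mpr ⟨hk1, hk⟩⟩
  have ek' : en' k = s(y, x) := by rw [hen', Function.update_self]; exact Sym2.eq_swap
  have hlift : ∀ σ τ, FeasO S' E' en' y k σ τ → Feas S E en σ τ := by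
    intro σ τ h
    have := L3 (E := E) (en := en) hvn hy hx ek' (by
      intro i hi hik
      refine ⟨Finset.mem_of_mem_erase (Finset.mem_of_mem_erase hi), ?_⟩
      rw [hen', Function.update_of_ne hik]) hk ek hj1 hj2 h12 hk1.symm hk2.symm
      (by rw [hE']; simp) (by rw [hE']; simp) e1 e2 h
    rwa [hSi] at this
  have hsO : ∀ a b, FeasO S' E' en' y k a b → FeasO S' E' en' y k b a := fun _ _ h => h.symm
  suffices hmain : Two (FeasO S' E' en' y k) b c d from
    hmain.imp (hlift _ _) (hlift _ _) (hlift _ _)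
  have IH' : IHyp V ι S'.card := by
    intro S1 E1 en1 h1 h2 h3
    exact IH S1 E1 en1 (by omega) h2 h3
  have IH'' : IHyp V ι (S'.card + 1) := by
    intro S1 E1 en1 h1 h2 h3
    exact IH S1 E1 en1 (by omega) h2 h3
  have hyk : y ∈ en' k := by rw [ek']; simp
  by_cases hyb : y = b
  · subst hyb
    exact caseA hG' IH' (by omega) hkE' hyk hL' hbc.symm hbd.symm
  by_cases hyc : y = c
  · subst hyc
    exact (caseA hG' IH' (by omega) hkE' hyk hL'.swap23 (Ne.symm hyb) hcd.symm |>.swap12 hsO)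
  by_cases hyd : y = d
  · subst hyd
    have h1 := caseA hG' IH' (by omega) hkE' hyk hL'.swap34.swap23 (Ne.symm hyb) (Ne.symm hyc)
    -- Two y b c → Two b c y
    exact (h1.swap12 hsO).swap23 hsO
  · have hdg : dg E' en' y = 3 := by
      have := hL'.2.2.2.2 y hL'.1
      unfold mul4 at this
      simp only [if_true, hyb, hyc, hyd, if_false] at this
      omega
    obtain ⟨i1, i2, i3, x1, x2, x3, g12, g13, g23, g1, g2, g3, hx1, hx2, hx3, f1, f2, f3, hal⟩ :=
      hG'.labels3 hdg
    rcases hal k hkE' hyk with h | h | h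
    · subst h
      exact tri hG' IH'' (by omega) hy g1 g2 g3 g12 g13 g23 hx1 hx2 hx3 hal f1 f2 f3 hL'
        (Ne.symm hyb) (Ne.symm hyc) (Ne.symm hyd) hbc hbd hcd
    · subst h
      refine tri hG' IH'' (by omega) hy g2 g1 g3 g12.symm g23 g13 hx2 hx1 hx3 ?_ f2 f1 f3 hL'
        (Ne.symm hyb) (Ne.symm hyc) (Ne.symm hyd) hbc hbd hcd
      intro i hi hyi
      rcases hal i hi hyi with h | h | h
      · exact Or.inr (Or.inl h)
      · exact Or.inl h
      · exact Or.inr (Or.inr h)
    · subst h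
      refine tri hG' IH'' (by omega) hy g3 g1 g2 g13.symm g23.symm g12 hx3 hx1 hx2 ?_ f3 f1 f2 hL'
        (Ne.symm hyb) (Ne.symm hyc) (Ne.symm hyd) hbc hbd hcd
      intro i hi hyi
      rcases hal i hi hyi with h | h | h
      · exact Or.inr (Or.inl h)
      · exact Or.inr (Or.inr h)
      · exact Or.inl h

theorem main3 {S : Finset V} {E : Finset ι} {en : ι → Sym2 V} (hG : Good S E en)
    (IH : IHyp V ι S.card) (hS : 4 ≤ S.card) {v b c d : V}
    (hL : Lst S E en v b c d) (hb : b ≠ v) (hc : c ≠ v) (hd : d ≠ v)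
    (hbc : b ≠ c) (hbd : b ≠ d) (hcd : c ≠ d) : Two (Feas S E en) b c d := by
  have hv := hL.1
  have hdg : dg E en v = 3 := by
    have := hL.2.2.2.2 v hv
    unfold mul4 at this
    simp only [if_true, hb.symm, hc.symm, hd.symm, if_false] at this
    omega
  obtain ⟨i1, i2, i3, x, y, z, h12, h13, h23, h1, h2, h3, hx, hy, hz, e1, e2, e3, hall⟩ :=
    hG.labels3 hdg
  have hxyz : ¬ (x = y ∧ y = z) := by
    rintro ⟨rfl, rfl⟩
    have := hG.blocked hv h1 h2 h3 h12 h13 h23 e1 e2 e3 (T := {x})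
      (by intro a ha; simp only [Finset.mem_singleton] at ha; exact ha ▸ hx)
      (by simp) (by simp) (by simp)
    simp at this
  by_cases hxy : x = y
  · have hzy : z ≠ y := fun h => hxyz ⟨hxy, h.symm⟩
    refine dbl hG IH hS hv h3 h1 h2 h13.symm h23.symm h12 hz hy hzy e3 (hxy ▸ e1) e2 ?_ hL
      hb hc hd hbc hbd hcd
    intro i hi hvi
    rcases hall i hi hvi with h | h | h
    · exact Or.inr (Or.inl h)
    · exact Or.inr (Or.inr h)
    · exact Or.inl h
  by_cases hxz : x = z
  · refine dbl hG IH hS hv h2 h1 h3 h12.symm h23 h13 hy hz (fun h => hxy (hxz.trans h.symm))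
      e2 (hxz ▸ e1) e3 ?_ hL hb hc hd hbc hbd hcd
    intro i hi hvi
    rcases hall i hi hvi with h | h | h
    · exact Or.inr (Or.inl h)
    · exact Or.inl h
    · exact Or.inr (Or.inr h)
  by_cases hyz : y = z
  · exact dbl hG IH hS hv h1 h2 h3 h12 h13 h23 hx hz hxz
      e1 (hyz ▸ e2) e3 hall hL hb hc hd hbc hbd hcd
  by_cases hnb : ∀ T, T ⊆ S.erase v → x ∈ T → y ∈ T → cnt E en T + 3 ≤ 2 * T.card
  · have := red3 hG IH le_rfl (by omega) hv h1 h2 h3 h12 h13 h23 hx hy hz hxy (Ne.symm hxz)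
      (Ne.symm hyz) hall e1 e2 e3 hnb hL hb hc hd
    exact this.imp FeasO.feas FeasO.feas FeasO.feas
  · push Not at hnb
    obtain ⟨T, hT, hxT, hyT, hTc⟩ := hnb
    have hnb' : ∀ T', T' ⊆ S.erase v → y ∈ T' → z ∈ T' → cnt E en T' + 3 ≤ 2 * T'.card := by
      intro T' hT' hyT' hzT'
      by_contra hcon
      push Not at hcon
      have s1 := cnt_super (E := E) (en := en) T T'
      have s2 := hG.sp (T ∩ T') ((Finset.inter_subset_left.trans hT).trans
        (Finset.erase_subset _ _)) ⟨y, Finset.mem_inter.mpr ⟨hyT, hyT'⟩⟩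
      have s3 := hG.blocked hv h1 h2 h3 h12 h13 h23 e1 e2 e3 (Finset.union_subset hT hT')
        (Finset.mem_union_left _ hxT) (Finset.mem_union_left _ hyT)
        (Finset.mem_union_right _ hzT')
      have s4 := Finset.card_union_add_card_inter T T'
      omega
    have := red3 hG IH le_rfl (by omega) hv h2 h3 h1 h23 h12.symm h13.symm hy hz hx hyz
      hxy hxz (by
        intro i hi hvi
        rcases hall i hi hvi with h | h | h
        · exact Or.inr (Or.inr h)
        · exact Or.inl h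
        · exact Or.inr (Or.inl h)) e2 e3 e1 hnb' hL hb hc hd
    exact this.imp FeasO.feas FeasO.feas FeasO.feas

theorem step {S : Finset V} {E : Finset ι} {en : ι → Sym2 V} (hG : Good S E en)
    (IH : IHyp V ι S.card) (hS : 2 ≤ S.card) {a b c d : V}
    (hL : Lst S E en a b c d) : C4 (Feas S E en) a b c d := by
  have hs := feas_symm S E en
  by_cases h2 : S.card = 2
  · exact base2 hG h2 hL
  have h3 : 3 ≤ S.card := by omega
  by_cases hab : a = b
  · subst hab; exact caseDeg2 hG IH h3 hL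
  by_cases hac : a = c
  · subst hac; exact (caseDeg2 hG IH h3 hL.swap23).swap23 hs
  by_cases had : a = d
  · subst had; exact ((caseDeg2 hG IH h3 hL.swap34.swap23).swap23 hs).swap34 hs
  by_cases hbc : b = c
  · subst hbc
    exact ((caseDeg2 hG IH h3 hL.swap12.swap23).swap23 hs).swap12 hs
  by_cases hbd : b = d
  · subst hbd
    exact (((caseDeg2 hG IH h3 hL.swap12.swap34.swap23).swap23 hs).swap34 hs).swap12 hs
  by_cases hcd : c = d
  · subst hcd
    exact ((((caseDeg2 hG IH h3 hL.swap23.swap12.swap34.swap23).swap23 hs).swap34 hs).swap12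
      hs).swap23 hs
  have h4 : 4 ≤ S.card := by
    have hsub : ({a, b, c, d} : Finset V) ⊆ S := by
      intro x hx
      simp only [Finset.mem_insert, Finset.mem_singleton] at hx
      rcases hx with rfl | rfl | rfl | rfl
      · exact hL.1
      · exact hL.2.1
      · exact hL.2.2.1
      · exact hL.2.2.2.1
    have hc4 : ({a, b, c, d} : Finset V).card = 4 := by
      rw [Finset.card_insert_of_notMem, Finset.card_insert_of_notMem,
        Finset.card_insert_of_notMem, Finset.card_singleton]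
      · simpa using hcd
      · simp [hbc, hbd]
      · simp [hab, hac, had]
    have := Finset.card_le_card hsub
    omega
  refine C4_of_two hs ?_ ?_ ?_ ?_
  · exact main3 hG IH h4 hL (Ne.symm hab) (Ne.symm hac) (Ne.symm had) hbc hbd hcd
  · exact main3 hG IH h4 hL.swap12 hab (Ne.symm hbc) (Ne.symm hbd) hac had hcd
  · exact main3 hG IH h4 hL.swap23.swap12 hac hbc (Ne.symm hcd) hab had hbd
  · exact main3 hG IH h4 hL.swap34.swap23.swap12 had hbd hcd hab hac hbc

theorem ihyp_all (n : ℕ) : IHyp V ι n := by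
  induction n with
  | zero => intro S E en h; omega
  | succ n ih =>
    intro S E en h1 h2 hG a b c d hL
    refine step hG ?_ h2 hL
    intro S1 E1 en1 g1 g2 g3
    exact ih S1 E1 en1 (by omega) g2 g3

/-- the main theorem on multigraphs. -/
theorem main_multigraph {S : Finset V} {E : Finset ι} {en : ι → Sym2 V} (hG : Good S E en)
    (hS : 2 ≤ S.card) {a b c d : V} (hL : Lst S E en a b c d) :
    C4 (Feas S E en) a b c d :=
  ihyp_all (S.card + 1) S E en (by omega) hS hG a b c d hL

end Pool.Agent.Lib.MP_bad31e_co
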