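import Mathlib
import Pool.Agent.Lib.MP_bad31e_co.Induct

open Finset
open scoped Classical

namespace Pool.Agent.Lib.MP_bad31e_co

universe u w

variable {V : Type u}

theorem cnt_le_add {ι : Type w} {E E₁ E₂ : Finset ι} {en : ι → Sym2 V} {T : Finset V}
    (h : ∀ e ∈ E, e ∈ E₁ ∨ e ∈ E₂) : cnt E en T ≤ cnt E₁ en T + cnt E₂ en T := by
  unfold cnt
  refine le_trans ?_ (Finset.card_union_le _ _)
  apply Finset.card_le_card
  intro e he
  rw [Finset.mem_filter] at he
  rw [Finset.mem_union, Finset.mem_filter, Finset.mem_filter]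
  rcases h e he.1 with h1 | h1
  · exact Or.inl ⟨h1, he.2⟩
  · exact Or.inr ⟨h1, he.2⟩

/-- the edges of a simple graph as a finset. -/
noncomputable def edgeFin [Fintype V] (G : SimpleGraph V) : Finset (Sym2 V) :=
  Finset.univ.filter (fun e => e ∈ G.edgeSet)

theorem mem_edgeFin [Fintype V] {G : SimpleGraph V} {e : Sym2 V} :
    e ∈ edgeFin G ↔ e ∈ G.edgeSet := by
  unfold edgeFin
  rw [Finset.mem_filter]
  exact ⟨fun h => h.2, fun h => ⟨Finset.mem_univ _, h⟩⟩

theorem card_edgeFin [Fintype V] (G : SimpleGraph V) : (edgeFin G).card = Nat.card G.edgeSet := by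
  unfold edgeFin
  rw [Nat.card_eq_fintype_card, Fintype.card_subtype]

theorem card_tree [Fintype V] {T : SimpleGraph V} (hT : T.IsTree) :
    (edgeFin T).card + 1 = Fintype.card V := by
  rw [card_edgeFin, ← Nat.card_eq_fintype_card]
  exact (SimpleGraph.isTree_iff_connected_and_card.mp hT).2

theorem forest_bound [Fintype V] {T : SimpleGraph V} (hT : T.IsAcyclic) {X : Finset V}
    (hX : X.Nonempty) : cnt (edgeFin T) (fun e => e) X + 1 ≤ X.card := by
  have hne : Nonempty {x // x ∈ X} := ⟨⟨hX.choose, hX.choose_spec⟩⟩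
  set H : SimpleGraph {x // x ∈ X} := T.comap (fun x => (x : V)) with hH
  have hHa : H.IsAcyclic := hT.of_comap (Function.Embedding.subtype (fun x => x ∈ X))
  obtain ⟨F, hHF, _, hF⟩ :=
    (SimpleGraph.connected_top (V := {x // x ∈ X})).exists_isTree_le_of_le_of_isAcyclic le_top hHa
  have hc := card_tree hF
  rw [Fintype.card_coe] at hc
  have hsub : (edgeFin T).filter (fun e => ∀ x ∈ e, x ∈ X) ⊆
      (edgeFin F).image (Sym2.map (fun x : {x // x ∈ X} => (x : V))) := by
    intro e he
    rw [Finset.mem_filter] at he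
    obtain ⟨he1, he2⟩ := he
    unfold edgeFin at he1
    rw [Finset.mem_filter] at he1
    induction' e using Sym2.ind with a b
    have ha := he2 a (by simp)
    have hb := he2 b (by simp)
    rw [Finset.mem_image]
    refine ⟨s(⟨a, ha⟩, ⟨b, hb⟩), ?_, by simp⟩
    unfold edgeFin
    rw [Finset.mem_filter]
    refine ⟨Finset.mem_univ _, ?_⟩
    rw [SimpleGraph.mem_edgeSet]
    apply hHF
    rw [hH, SimpleGraph.comap_adj]
    exact he1.2
  have h1 := Finset.card_le_card hsub
  have h2 := Finset.card_image_le (s := edgeFin F) (f := Sym2.map (fun x : {x // x ∈ X} => (x : V)))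
  have h3 : cnt (edgeFin T) (fun e => e) X =
      ((edgeFin T).filter (fun e => ∀ x ∈ e, x ∈ X)).card := by
    unfold cnt
    congr!
  omega

theorem good_of_trees [Fintype V] {G T₁ T₂ : SimpleGraph V} (h1 : T₁.IsTree) (h2 : T₂.IsTree)
    (hd : Disjoint T₁.edgeSet T₂.edgeSet) (hu : G.edgeSet = T₁.edgeSet ∪ T₂.edgeSet) :
    Good (Finset.univ : Finset V) (edgeFin G) (fun e => e) where
  sub := fun _ _ _ _ => Finset.mem_univ _
  tot := by
    have hE : edgeFin G = edgeFin T₁ ∪ edgeFin T₂ := by
      ext e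
      unfold edgeFin
      rw [Finset.mem_union, Finset.mem_filter, Finset.mem_filter, Finset.mem_filter, hu,
        Set.mem_union]
      tauto
    have hdis : Disjoint (edgeFin T₁) (edgeFin T₂) := by
      rw [Finset.disjoint_left]
      intro e he he'
      unfold edgeFin at he he'
      rw [Finset.mem_filter] at he he'
      exact Set.disjoint_left.mp hd he.2 he'.2
    rw [hE, Finset.card_union_of_disjoint hdis, Finset.card_univ]
    have := card_tree h1
    have := card_tree h2
    omega
  sp := by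
    intro T _ hT
    have b1 := forest_bound h1.isAcyclic hT
    have b2 := forest_bound h2.isAcyclic hT
    have h3 : cnt (edgeFin G) (fun e => e) T ≤
        cnt (edgeFin T₁) (fun e => e) T + cnt (edgeFin T₂) (fun e => e) T := by
      apply cnt_le_add
      intro e he
      unfold edgeFin at he ⊢
      rw [Finset.mem_filter, hu, Set.mem_union] at he
      rw [Finset.mem_filter, Finset.mem_filter]
      tauto
    omega

theorem dg_edgeFin [Fintype V] (G : SimpleGraph V) (v : V) :
    dg (edgeFin G) (fun e => e) v = (G.neighborSet v).ncard := by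
  have h1 : (edgeFin G).filter (fun e => v ∈ e) =
      (Finset.univ.filter (fun w => G.Adj v w)).image (fun w => s(v, w)) := by
    ext e
    unfold edgeFin
    rw [Finset.mem_filter, Finset.mem_filter, Finset.mem_image]
    constructor
    · rintro ⟨⟨_, he⟩, hv⟩
      obtain ⟨w, rfl⟩ := Sym2.mem_iff_exists.mp hv
      refine ⟨w, ?_, rfl⟩
      rw [Finset.mem_filter]
      exact ⟨Finset.mem_univ _, he⟩
    · rintro ⟨w, hw, rfl⟩
      rw [Finset.mem_filter] at hw
      exact ⟨⟨Finset.mem_univ _, hw.2⟩, by simp⟩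
  unfold dg
  rw [h1, Finset.card_image_of_injective]
  · rw [Set.ncard_eq_toFinset_card']
    congr 1
    ext w
    simp [SimpleGraph.mem_neighborSet]
  · intro a b hab
    simp only [Sym2.eq_iff] at hab
    rcases hab with ⟨_, h⟩ | ⟨h1, h2⟩
    · exact h
    · rw [h2, ← h1]

theorem sum_dg_total {S : Finset V} {ι : Type w} {E : Finset ι} {en : ι → Sym2 V}
    (hG : Good S E en) : ∑ v ∈ S, dg E en v = 2 * E.card := by
  rw [sum_dg, Finset.card_eq_sum_ones, Finset.mul_sum]
  apply Finset.sum_congr rfl
  intro i hi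
  induction' hh : en i using Sym2.ind with a b
  have hab : a ≠ b := by
    rintro rfl
    exact hG.noloop hi hh
  rw [card_ends hab]
  have ha := hG.sub i hi a (by rw [hh]; simp)
  have hb := hG.sub i hi b (by rw [hh]; simp)
  simp [ha, hb]

/-- in a graph with all degrees 3 or 4 there are exactly four vertices of degree 3. -/
theorem four_transits {S : Finset V} {ι : Type w} {E : Finset ι} {en : ι → Sym2 V}
    (hG : Good S E en) (hd : ∀ v ∈ S, dg E en v = 3 ∨ dg E en v = 4) :
    (S.filter (fun v => dg E en v = 3)).card = 4 := by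
  have h1 := sum_dg_total hG
  have h2 : ∑ v ∈ S, dg E en v + ∑ v ∈ S, (if dg E en v = 3 then 1 else 0) = 4 * S.card := by
    rw [← Finset.sum_add_distrib]
    have : ∀ v ∈ S, dg E en v + (if dg E en v = 3 then 1 else 0) = 4 := by
      intro v hv
      rcases hd v hv with h | h <;> simp [h]
    rw [Finset.sum_congr rfl this]
    simp [mul_comm]
  rw [Finset.card_filter]
  have := hG.tot
  omega

theorem tree_of_up [Fintype V] (rk : V → ℤ) (t : V) (up : V → Sym2 V)
    (h : ∀ v, v ≠ t → ∃ w, up v = s(v, w) ∧ rk v < rk w) :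
    (SimpleGraph.fromEdgeSet {e | ∃ v, v ≠ t ∧ up v = e}).IsTree := by
  set I := SimpleGraph.fromEdgeSet {e | ∃ v, v ≠ t ∧ up v = e} with hI
  have hadj : ∀ v, v ≠ t → ∃ w, up v = s(v, w) ∧ rk v < rk w ∧ I.Adj v w := by
    intro v hv
    obtain ⟨w, h1, h2⟩ := h v hv
    refine ⟨w, h1, h2, ?_⟩
    rw [hI, SimpleGraph.fromEdgeSet_adj]
    exact ⟨⟨v, hv, h1⟩, by rintro rfl; omega⟩
  have hreach : ∀ n : ℕ, ∀ v, (∀ w, rk w ≤ rk v + n) → I.Reachable v t := by
    intro n
    induction n using Nat.strong_induction_on with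
    | _ n ih =>
      intro v hv
      by_cases hvt : v = t
      · subst hvt; exact SimpleGraph.Reachable.refl _
      · obtain ⟨w, _, h2, h3⟩ := hadj v hvt
        have h4 := hv w
        have h5 : I.Reachable w t := by
          refine ih (n - 1) (by omega) w ?_
          intro x
          have := hv x
          have h6 : 1 ≤ n := by omega
          push_cast [Nat.cast_sub h6]
          omega
        exact h3.reachable.trans h5
  have hreach' : ∀ v, I.Reachable v t := by
    intro v
    obtain ⟨M, hM⟩ := (Finset.univ.image rk).exists_le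
    have hM' : ∀ w, rk w ≤ M := fun w => hM _ (Finset.mem_image_of_mem _ (Finset.mem_univ _))
    refine hreach (M - rk v).toNat v ?_
    intro w
    have h1 := hM' w
    have h2 := hM' v
    omega
  rw [SimpleGraph.isTree_iff_connected_and_card]
  have hnonempty : Nonempty V := ⟨t⟩
  refine ⟨⟨fun a b => (hreach' a).trans (hreach' b).symm⟩, ?_⟩
  have hset : I.edgeSet = up '' {v | v ≠ t} := by
    rw [hI, SimpleGraph.edgeSet_fromEdgeSet]
    ext e
    simp only [Set.mem_sdiff, Set.mem_ofPred_eq, Set.mem_image]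
    constructor
    · rintro ⟨h1, _⟩; exact h1
    · rintro ⟨v, hv, rfl⟩
      refine ⟨⟨v, hv, rfl⟩, ?_⟩
      obtain ⟨w, h1, h2⟩ := h v hv
      rw [h1]
      intro hcon
      rw [Sym2.mem_diagSet, Sym2.mk_isDiag_iff] at hcon
      subst hcon; omega
  rw [hset]
  have hinj : Set.InjOn up {v | v ≠ t} := by
    intro a ha b hb hab
    obtain ⟨w, h1, h2⟩ := h a ha
    obtain ⟨w', h3, h4⟩ := h b hb
    rw [h1, h3, Sym2.eq_iff] at hab
    rcases hab with ⟨h5, _⟩ | ⟨h5, h6⟩
    · exact h5
    · subst h5; subst h6; omega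
  have h5 : Nat.card (up '' {v | v ≠ t}) = Nat.card {v : V | v ≠ t} :=
    Nat.card_image_of_injOn hinj
  rw [h5]
  have h6 : Nat.card {v : V | v ≠ t} = Fintype.card V - 1 := by
    have h8 : Nat.card {v : V | v ≠ t} = (Finset.univ.erase t).card := by
      rw [← Finset.filter_ne', Nat.card_eq_fintype_card]
      exact Fintype.card_subtype _
    rw [h8, Finset.card_erase_of_mem (Finset.mem_univ _), Finset.card_univ]
  have h7 : 0 < Fintype.card V := Fintype.card_pos_iff.mpr ⟨t⟩
  rw [h6, Nat.card_eq_fintype_card]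
  omega

end Pool.Agent.Lib.MP_bad31e_co
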